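import Mathlib

set_option autoImplicit false

namespace Pool.Agent.Lib.MP_c03ca8_nt.D

open Finset

/-! A dense set of tuples contains a large box (Erdős 1964). -/

theorem box_choose {t K n : ℕ} {η : ℝ} (hη : 0 < η) (hK : 2 * (t : ℝ) ≤ η * K) (hn : η * K ≤ n) :
    (η / 2) ^ t * (K.choose t : ℝ) ≤ n.choose t := by
  have h1 : (K.choose t : ℝ) ≤ (K : ℝ) ^ t / t.factorial := Nat.choose_le_pow_div t K
  have h2 : (((n + 1 - t : ℕ) : ℝ)) ^ t / t.factorial ≤ n.choose t := by
    simpa using Nat.pow_le_choose (α := ℝ) t n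
  have ht : t ≤ n + 1 := by
    have : (t : ℝ) ≤ n + 1 := by nlinarith [(Nat.cast_nonneg t : (0 : ℝ) ≤ t)]
    exact_mod_cast this
  have h3 : η / 2 * K ≤ ((n + 1 - t : ℕ) : ℝ) := by
    rw [Nat.cast_sub ht]; push_cast; linarith
  calc (η / 2) ^ t * (K.choose t : ℝ) ≤ (η / 2) ^ t * ((K : ℝ) ^ t / t.factorial) := by gcongr
    _ = (η / 2 * K) ^ t / t.factorial := by rw [mul_pow]; ring
    _ ≤ _ := le_trans (by gcongr) h2

/-- Many fibres are large, so some `t`-set lies in many fibres. -/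
theorem box_step {β : Type} [DecidableEq β] (H : Finset ℕ) (V : Finset β) (F : β → Finset ℕ)
    (hF : ∀ v ∈ V, F v ⊆ H) {t : ℕ} {η : ℝ} (hη : 0 < η) (hK : 4 * (t : ℝ) ≤ η * H.card)
    (htK : t ≤ H.card) (hs : η * H.card * V.card ≤ ∑ v ∈ V, ((F v).card : ℝ)) (hH : 0 < H.card) :
    ∃ A ⊆ H, A.card = t ∧ η / 2 * (η / 4) ^ t * V.card ≤ (V.filter fun v => A ⊆ F v).card := by
  classical
  set K : ℕ := H.card with hKd
  have hK0 : (0 : ℝ) < K := by exact_mod_cast hH
  set U := V.filter fun v => η / 2 * K ≤ ((F v).card : ℝ) with hU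
  have hU1 : η / 2 * V.card ≤ U.card := by
    have h1 : ∑ v ∈ V, ((F v).card : ℝ) ≤
        ∑ v ∈ V, (η / 2 * K + if η / 2 * K ≤ ((F v).card : ℝ) then (K : ℝ) else 0) := by
      refine sum_le_sum fun v hv => ?_
      have : ((F v).card : ℝ) ≤ K := by exact_mod_cast card_le_card (hF v hv)
      split_ifs with h
      · have : 0 ≤ η / 2 * K := by positivity
        linarith
      · linarith
    rw [sum_add_distrib, ← sum_filter, sum_const, sum_const, nsmul_eq_mul, nsmul_eq_mul, ← hU] at h1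
    have : K * (η / 2 * V.card) ≤ K * U.card := by nlinarith
    exact le_of_mul_le_mul_left this hK0
  have hdc : ∑ A ∈ powersetCard t H, ((V.filter fun v => A ⊆ F v).card : ℝ) =
      ∑ v ∈ V, ((F v).card.choose t : ℝ) := by
    simp only [card_filter, Nat.cast_sum]
    rw [sum_comm]
    refine sum_congr rfl fun v hv => ?_
    rw [← card_powersetCard, ← Nat.cast_sum, ← card_filter]
    congr 2
    ext A
    simp only [mem_filter, mem_powersetCard]
    exact ⟨fun h => ⟨h.2, h.1.2⟩, fun h => ⟨⟨h.1.trans (hF v hv), h.2⟩, h.1⟩⟩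
  have hlow : ∑ _A ∈ powersetCard t H, η / 2 * (η / 4) ^ t * V.card ≤
      ∑ A ∈ powersetCard t H, ((V.filter fun v => A ⊆ F v).card : ℝ) := by
    rw [hdc, sum_const, card_powersetCard, nsmul_eq_mul]
    calc (K.choose t : ℝ) * (η / 2 * (η / 4) ^ t * V.card)
        = (η / 2 * V.card) * ((η / 2 / 2) ^ t * K.choose t) := by
          rw [show η / 2 / 2 = η / 4 by ring]; ring
      _ ≤ U.card * ((η / 2 / 2) ^ t * K.choose t) := by gcongr
      _ = ∑ _v ∈ U, (η / 2 / 2) ^ t * (K.choose t : ℝ) := by rw [sum_const, nsmul_eq_mul]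
      _ ≤ ∑ v ∈ U, ((F v).card.choose t : ℝ) := sum_le_sum fun v hv =>
          box_choose (by positivity) (by linarith) (mem_filter.1 hv).2
      _ ≤ _ := sum_le_sum_of_subset_of_nonneg (filter_subset _ _) fun _ _ _ => by positivity
  obtain ⟨A, hA, h⟩ := exists_le_of_sum_le (powersetCard_nonempty.2 htK) hlow
  exact ⟨A, (mem_powersetCard.1 hA).1, (mem_powersetCard.1 hA).2, h⟩

theorem box (G t : ℕ) {η : ℝ} (hη : 0 < η) : ∃ K0 : ℕ, ∀ H : Finset ℕ, K0 ≤ H.card →
    ∀ E : Finset (Fin G → ℕ), E ⊆ Fintype.piFinset (fun _ => H) → η * (H.card : ℝ) ^ G ≤ E.card →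
      ∃ B : Fin G → Finset ℕ, (∀ g, B g ⊆ H ∧ (B g).card = t) ∧ Fintype.piFinset B ⊆ E := by
  classical
  induction G generalizing η with
  | zero =>
    refine ⟨0, fun H _ E _ hE => ⟨fun g => g.elim0, fun g => g.elim0, fun u _ => ?_⟩⟩
    have : 0 < E.card := by
      have : (0 : ℝ) < E.card := lt_of_lt_of_le (by simpa using hη) hE
      exact_mod_cast this
    obtain ⟨v, hv⟩ := card_pos.1 this
    rwa [Subsingleton.elim u v]
  | succ G ih =>
    obtain ⟨K1, hK1⟩ := ih (η := η / 2 * (η / 4) ^ t) (by positivity)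
    refine ⟨K1 + t + 1 + ⌈4 * (t : ℝ) / η⌉₊, fun H hH E hE hc => ?_⟩
    have h4 : 4 * (t : ℝ) ≤ η * H.card := by
      have h1 : 4 * (t : ℝ) / η ≤ H.card :=
        (Nat.le_ceil _).trans (by exact_mod_cast (by omega : ⌈4 * (t : ℝ) / η⌉₊ ≤ H.card))
      rw [div_le_iff₀ hη] at h1; linarith
    set V := Fintype.piFinset (fun _ : Fin G => H) with hV
    have hVc : (V.card : ℝ) = (H.card : ℝ) ^ G := by simp [hV]
    have hs : η * H.card * V.card ≤
        ∑ v ∈ V, ((H.filter fun a => (Fin.cons a v : Fin (G + 1) → ℕ) ∈ E).card : ℝ) := by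
      rw [hVc, mul_assoc, ← pow_succ']
      refine hc.trans ?_
      rw [← Nat.cast_sum, Nat.cast_le, ← card_sigma]
      refine card_le_card_of_injOn (fun u => ⟨Fin.tail u, u 0⟩) (fun u hu => ?_) fun u _ u' _ h => ?_
      · have := Fintype.mem_piFinset.1 (hE hu)
        simp only [coe_sigma, Set.mem_sigma_iff, mem_coe, mem_filter, Fin.cons_self_tail]
        exact ⟨Fintype.mem_piFinset.2 fun i => this _, this 0, hu⟩
      · simp only [Sigma.mk.injEq, heq_eq_eq] at h
        rw [← Fin.cons_self_tail u, ← Fin.cons_self_tail u', h.1, h.2]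
    obtain ⟨A, hA, hAt, hm⟩ := box_step H V _ (fun v _ => filter_subset _ _) hη h4 (by omega) hs
      (by omega)
    obtain ⟨B, hB, hBE⟩ := hK1 H (by omega) _ (filter_subset _ _) (by rwa [hVc] at hm)
    refine ⟨Fin.cons A B, fun g => Fin.cases ⟨hA, hAt⟩ (fun i => hB i) g, fun u hu => ?_⟩
    have hu' := Fintype.mem_piFinset.1 hu
    have h1 : Fin.tail u ∈ Fintype.piFinset B := Fintype.mem_piFinset.2 fun i => hu' i.succ
    have h2 := (mem_filter.1 ((mem_filter.1 (hBE h1)).2 (hu' 0))).2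
    rwa [Fin.cons_self_tail] at h2

end Pool.Agent.Lib.MP_c03ca8_nt.D
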