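import Pool.Agent.Lib.MP_c03ca8_nt.D.Defs

set_option autoImplicit false

noncomputable section

namespace Pool.Agent.Lib.MP_c03ca8_nt.D

open Finset Filter Q H
open P3 (Rough om xi Xi bxB bil Adm)
open scoped Classical

/-! Counting the occupied groups. -/

variable {ι : Type} [Fintype ι] [DecidableEq ι] {Γ : Type} [Fintype Γ] [DecidableEq Γ]

/-- For one group with `X` marked forms: `(2 / s - 1 / s ^ 2) X - X (X - 1) / s ^ 2 = 1 - (1 - X / s) ^ 2` is at
most `1`, and it is `0` if `X = 0`. Split the sums over `i` by the fibres of `grp` (`Finset.sum_fiberwise`). -/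
theorem cnt_set (grp : ι → Γ) {lam : Γ → ℝ} (hlam : ∀ g, 0 ≤ lam g) {s : ℝ} (hs : 0 < s) (S : Finset ι) :
    (2 / s - 1 / s ^ 2) * ∑ i ∈ S, lam (grp i) -
      1 / s ^ 2 * ∑ i ∈ S, lam (grp i) * (S.filter fun j => grp j = grp i ∧ j ≠ i).card ≤
      ∑ g ∈ S.image grp, lam g := by
  rw [mul_sum, mul_sum, ← sum_sub_distrib,
    ← sum_fiberwise_of_maps_to (t := S.image grp) (g := grp) fun i hi => mem_image_of_mem grp hi]
  refine sum_le_sum fun g _ => ?_
  rw [sum_congr rfl (g := fun _ => lam g * (2 / s - 1 / s ^ 2 -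
    1 / s ^ 2 * (((S.filter fun j => grp j = g).card : ℝ) - 1))), sum_const, nsmul_eq_mul]
  · generalize ((S.filter fun j => grp j = g).card : ℝ) = X
    have : X * (lam g * (2 / s - 1 / s ^ 2 - 1 / s ^ 2 * (X - 1))) =
        lam g - lam g * (1 - X / s) ^ 2 := by
      field_simp
      ring
    rw [this]
    exact sub_le_self _ (mul_nonneg (hlam g) (sq_nonneg _))
  · intro i hi
    have e : (S.filter fun j => grp j = grp i ∧ j ≠ i) = (S.filter fun j => grp j = g).erase i := by
      ext j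
      simp only [mem_filter, mem_erase, (mem_filter.1 hi).2]
      tauto
    rw [e, ← card_erase_add_one hi, (mem_filter.1 hi).2]
    push_cast
    ring

/-- Model: `H.cnt_pt`. For each `n` apply `cnt_set` to the set of prime forms; the weight of the occupied
groups is at most `∑ lam`, and below `c0 ∑ lam` unless `n` is good or some form is not rough. -/
theorem cnt_grp (I : Finset ℕ) (h : ι → ℕ) (grp : ι → Γ) {lam : Γ → ℝ} (hlam : ∀ g, 0 ≤ lam g)
    {s c0 : ℝ} (hs : 0 < s) (hc0 : 0 ≤ c0) (y : ℝ) (f : ℕ → ℝ) (hf : ∀ n, 0 ≤ f n) :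
    (2 / s - 1 / s ^ 2) * ∑ i, lam (grp i) * ∑ n ∈ prm I (h i), f n -
      1 / s ^ 2 * ∑ i, lam (grp i) * ∑ j ∈ univ.filter (fun j => grp j = grp i ∧ j ≠ i),
        ∑ n ∈ prm2 I (h i) (h j), f n ≤
      (∑ g, lam g) * (c0 * ∑ n ∈ I, f n + ∑ n ∈ gdP h (Hv grp lam c0) y I, f n +
        ∑ l, ∑ n ∈ I.filter (fun n => ¬ Rough y (n + h l)), f n) := by
  have e1 : ∑ i, lam (grp i) * ∑ n ∈ prm I (h i), f n =
      ∑ n ∈ I, (∑ i ∈ univ.filter fun l => (n + h l).Prime, lam (grp i)) * f n := by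
    simp only [prm, sum_filter, mul_sum, sum_mul]
    rw [sum_comm]
    refine sum_congr rfl fun n _ => sum_congr rfl fun i _ => ?_
    split_ifs <;> simp
  have e2 : ∑ i, lam (grp i) * ∑ j ∈ univ.filter (fun j => grp j = grp i ∧ j ≠ i),
      ∑ n ∈ prm2 I (h i) (h j), f n = ∑ n ∈ I, (∑ i ∈ univ.filter fun l => (n + h l).Prime,
        lam (grp i) * ((univ.filter fun l => (n + h l).Prime).filter
          fun j => grp j = grp i ∧ j ≠ i).card) * f n := by
    simp only [sum_mul]
    rw [sum_congr rfl fun n _ => sum_filter _ _, sum_comm]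
    refine sum_congr rfl fun i _ => ?_
    simp only [prm2]
    rw [sum_congr rfl fun j _ => sum_filter _ _, sum_comm, mul_sum]
    refine sum_congr rfl fun n _ => ?_
    by_cases hi : (n + h i).Prime
    · simp only [hi, true_and, if_true]
      rw [← sum_filter, sum_const, nsmul_eq_mul, filter_comm, mul_assoc]
    · simp [hi]
  have e3 : ∑ l, ∑ n ∈ I.filter (fun n => ¬ Rough y (n + h l)), f n =
      ∑ n ∈ I, ∑ l, if ¬ Rough y (n + h l) then f n else 0 := by
    rw [sum_comm]
    exact sum_congr rfl fun l _ => sum_filter _ _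
  rw [e1, e2, e3, gdP, sum_filter, mul_sum, mul_sum, mul_sum I f, ← sum_sub_distrib,
    ← sum_add_distrib, ← sum_add_distrib, mul_sum]
  refine sum_le_sum fun n _ => ?_
  have hL : 0 ≤ ∑ g, lam g := sum_nonneg fun g _ => hlam g
  have h1 := cnt_set grp hlam hs (univ.filter fun l => (n + h l).Prime)
  have h2 : ∑ g ∈ (univ.filter fun l => (n + h l).Prime).image grp, lam g ≤ ∑ g, lam g :=
    sum_le_sum_of_subset_of_nonneg (subset_univ _) fun g _ _ => hlam g
  have h3 : ∀ l, 0 ≤ if ¬ Rough y (n + h l) then f n else 0 := fun l =>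
    ite_nonneg (hf n) le_rfl
  have h4 := sum_nonneg fun l (_ : l ∈ univ) => h3 l
  have h5 := mul_nonneg hc0 (hf n)
  rw [← mul_assoc, ← mul_assoc, ← sub_mul]
  refine (mul_le_mul_of_nonneg_right h1 (hf n)).trans ?_
  split_ifs with hc
  · exact mul_le_mul h2 (by linarith) (hf n) hL
  · by_cases hr : ∀ l, Rough y (n + h l)
    · refine (mul_le_mul_of_nonneg_right (le_of_not_ge fun a => hc ⟨hr, a⟩) (hf n)).trans ?_
      rw [mul_comm c0, mul_assoc]
      exact mul_le_mul_of_nonneg_left (by linarith) hL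
    · obtain ⟨l, hl⟩ := not_forall.1 hr
      have := single_le_sum (fun l _ => h3 l) (mem_univ l)
      rw [if_pos hl] at this
      exact mul_le_mul h2 (by linarith) (hf n) hL

end Pool.Agent.Lib.MP_c03ca8_nt.D
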