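import Pool.Agent.Lib.MP_c03ca8_nt.D.Defs

set_option autoImplicit false

noncomputable section

namespace Pool.Agent.Lib.MP_c03ca8_nt.D

open Finset Filter Q H
open P3 (Rough om xi Xi bxB bil Adm)
open scoped Classical

/-! The choice of the parameters. -/

/-- Take `c0 < b < 1 / 4`, `θ = (1 / 4 - b) / 2`, `d = (b - c0) / 4`, `ε = d` (so `b (1 - 2 ε) ≥ b - d`),
`μ0 = 1 / (θ d)`; `μ = θ τ p ^ 2 / q ≥ 1 / d`, `s = μ / b ≥ 1`. At `t = 0`, after division by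
`θ ^ k κ ^ 2 q ^ k` (write `k = j + 2`), the right side is
`(2 / s - 1 / s ^ 2) (1 - ε) μ - μ ^ 2 / (s ^ 2 b) = b (1 - 2 ε) - (1 - ε) b ^ 2 / μ ≥ b - 2 d > c0`.
Continuity in `t` at `0` as in `H.main_num` (`ContinuousAt`, the denominator is `s ^ 2 * (b - t)`). -/
theorem num_grp {c0 : ℝ} (hc0 : 0 < c0) (hc : c0 < 1 / 4) : ∃ θ b ε μ0 : ℝ, 0 < θ ∧ θ + b < 1 / 4 ∧
    0 < ε ∧ ∀ (k τ : ℕ) (κ p q : ℝ), 2 ≤ k → 0 < κ → 0 < q → μ0 * q ≤ τ * p ^ 2 →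
      ∃ s t : ℝ, 1 ≤ s ∧ 0 < t ∧ t < 1 ∧ t < b ∧
        c0 * (θ ^ k * (κ ^ 2 * q ^ k + t) + t) + (2 * τ + τ ^ 2) * t < θ ^ (k + 1) *
          ((1 - t) * (τ * kz k τ θ b s t ((1 - ε) * (κ ^ 2 * p ^ 2 * q ^ (k - 1))) κ p q)) := by
  obtain ⟨b, hb1, hb2⟩ := exists_between hc
  obtain ⟨θ, hθ⟩ : ∃ θ, θ = (1 / 4 - b) / 2 := ⟨_, rfl⟩
  obtain ⟨d, hd⟩ : ∃ d, d = (b - c0) / 4 := ⟨_, rfl⟩
  have θ0 : 0 < θ := by linarith
  have d0 : 0 < d := by linarith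
  have b0 : 0 < b := by linarith
  refine ⟨θ, b, d, 1 / (θ * d), θ0, by linarith, d0, fun k τ κ p q hk hκ hq h => ?_⟩
  obtain ⟨j, rfl⟩ : ∃ j, k = j + 2 := ⟨k - 2, by omega⟩
  obtain ⟨μ, hμ⟩ : ∃ μ, μ = θ * (τ * p ^ 2) / q := ⟨_, rfl⟩
  have e : θ * (τ * p ^ 2) = μ * q := by rw [hμ]; field_simp
  have h1 : 1 ≤ d * μ := by
    rw [div_mul_eq_mul_div, div_le_iff₀ (by positivity)] at h
    refine le_of_mul_le_mul_right ?_ hq
    calc 1 * q ≤ d * (θ * (τ * p ^ 2)) := by linarith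
      _ = _ := by rw [e]; ring
  have μ0 : 0 < μ := by by_contra! c; nlinarith
  have s1 : 1 ≤ μ / b := by rw [le_div_iff₀ b0]; nlinarith
  have key : c0 < b * (1 - 2 * d) - (1 - d) * b ^ 2 / μ := by
    have : (1 - d) * b ^ 2 / μ ≤ d := by
      rw [div_le_iff₀ μ0]; nlinarith [mul_pos d0 (pow_pos b0 2)]
    nlinarith
  have hc1 : ContinuousAt (fun t : ℝ => c0 * (θ ^ (j + 2) * (κ ^ 2 * q ^ (j + 2) + t) + t) +
      (2 * τ + τ ^ 2) * t) 0 := by fun_prop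
  have hc2 : ContinuousAt (fun t : ℝ => θ ^ (j + 2 + 1) * ((1 - t) * (τ * kz (j + 2) τ θ b (μ / b) t
      ((1 - d) * (κ ^ 2 * p ^ 2 * q ^ (j + 2 - 1))) κ p q))) 0 := by
    unfold kz
    fun_prop (disch := rw [sub_zero]; positivity)
  have hev := ((hc1.eventually_lt hc2 (by
    have k := mul_lt_mul_of_pos_left key (show 0 < θ ^ (j + 2) * (κ ^ 2 * q ^ (j + 2)) by positivity)
    simp only [kz, add_zero, mul_zero, sub_zero, one_mul, Nat.add_sub_cancel,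
      show j + 2 - 1 = j + 1 from rfl]
    calc _ = _ := mul_comm _ _
      _ < _ := k
      _ = θ ^ (j + 2) * (κ ^ 2 * q ^ j) * ((2 / (μ / b) - 1 / (μ / b) ^ 2) * (1 - d) * (μ * q) * q -
          (μ * q) ^ 2 / ((μ / b) ^ 2 * b)) := by field_simp; ring
      _ = _ := by rw [← e]; ring)).and
    (eventually_lt_nhds (show (0 : ℝ) < 1 by norm_num))).and (eventually_lt_nhds b0)
  obtain ⟨t, ⟨⟨h2, h3⟩, h4⟩, h5⟩ := ((hev.filter_mono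
    (nhdsWithin_le_nhds (s := Set.Ioi (0 : ℝ)))).and self_mem_nhdsWithin).exists
  exact ⟨μ / b, t, s1, h5, h3, h4, h2⟩

end Pool.Agent.Lib.MP_c03ca8_nt.D
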