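import Pool.Agent.Lib.MP_c03ca8_nt.D.Defs
import Pool.Agent.Lib.MP_c03ca8_nt.H.ProbB

set_option autoImplicit false

noncomputable section

namespace Pool.Agent.Lib.MP_c03ca8_nt.D

open Finset Filter Q H
open P3 (Rough om xi Xi bxB bil Adm)
open scoped Classical

/-! The variational problem with a small support. -/

variable {ι : Type} [Fintype ι] [DecidableEq ι]

theorem iv_dom {M : ℕ} {α : ℕ → ℝ} {F : (ι → ℕ) → ℝ} {g : ℕ → ℝ} {κ : ℝ} (hD : Dom M α F g κ) :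
    Iv M F (len α) ≤ κ ^ 2 * m2 M g (len α) ^ Fintype.card ι := by
  have h := Finset.prod_univ_sum (fun _ : ι => range M) fun _ c => g c ^ 2 * len α c
  rw [Finset.prod_const, Finset.card_univ] at h
  rw [m2, h, Finset.mul_sum]
  refine Finset.sum_le_sum fun j _ => ?_
  rw [Finset.prod_mul_distrib, Finset.prod_pow, ← mul_assoc, ← mul_pow, ← sq_abs (F j)]
  exact mul_le_mul_of_nonneg_right (pow_le_pow_left₀ (abs_nonneg _) (hD.dom j) 2)
    (Finset.prod_nonneg fun l _ => sub_nonneg.2 (hD.stp.mono (Nat.le_succ _)))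

/-- The truncated product. -/
def Ft (α g : ℕ → ℝ) (κ : ℝ) (j : ι → ℕ) : ℝ :=
  if ∑ l, α (j l + 1) ≤ 1 then κ * ∏ l, g (j l) else 0

omit [Fintype ι] in
theorem var_one_add (A : Finset ι) (u : ι → ℝ) (hu : ∀ l, 0 ≤ u l) :
    1 + ∑ l ∈ A, u l ≤ ∏ l ∈ A, (1 + u l) := by
  induction A using Finset.induction_on with
  | empty => simp
  | insert a A ha ih =>
    rw [Finset.sum_insert ha, Finset.prod_insert ha]
    have h1 : 0 ≤ ∑ l ∈ A, u l := Finset.sum_nonneg fun l _ => hu l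
    nlinarith [hu a, mul_nonneg (hu a) h1, mul_le_mul_of_nonneg_left ih (hu a)]

/-- Markov. -/
theorem jv_ft {M : ℕ} (hM : 0 < M) {α g : ℕ → ℝ} (κ : ℝ) (a0 : α 0 = 0) (mono : Monotone α)
    (aM : α M ≤ 1 / 2) (i : ι) :
    κ ^ 2 * m1 M g (len α) ^ 2 * (3 * m2 M g (len α) ^ (Fintype.card ι - 1) -
      2 * (m2 M g (len α) + ∑ c ∈ range M, g c ^ 2 * len α c * α (c + 1)) ^ (Fintype.card ι - 1)) ≤
      Jv M (Ft α g κ) (len α) i := by
  have hl : ∀ c, 0 ≤ len α c := fun c => sub_nonneg.2 (mono (Nat.le_succ c))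
  have hu : ∀ c, 0 ≤ α c := fun c => a0 ▸ mono (Nat.zero_le c)
  have e : m2 M g (len α) + ∑ c ∈ range M, g c ^ 2 * len α c * α (c + 1) =
      ∑ c ∈ range M, g c ^ 2 * len α c * (1 + α (c + 1)) := by
    rw [m2, ← Finset.sum_add_distrib]
    exact Finset.sum_congr rfl fun c _ => by ring
  rw [e, m2, ← sum_fix hM i, ← sum_fix hM i, Finset.mul_sum, Finset.mul_sum,
    ← Finset.sum_sub_distrib, Finset.mul_sum]
  refine Finset.sum_le_sum fun j _ => ?_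
  have hw : 0 ≤ ∏ l ∈ univ.erase i, g (j l) ^ 2 * len α (j l) :=
    Finset.prod_nonneg fun l _ => mul_nonneg (sq_nonneg _) (hl _)
  have h1 := var_one_add (univ.erase i) (fun l => α (j l + 1)) fun l => hu _
  have h0 : 0 ≤ ∑ l ∈ univ.erase i, α (j l + 1) := Finset.sum_nonneg fun l _ => hu _
  have hk : 0 ≤ κ ^ 2 * m1 M g (len α) ^ 2 := by positivity
  rw [Finset.prod_mul_distrib (f := fun l => g (j l) ^ 2 * len α (j l))]
  by_cases h : ∑ l ∈ univ.erase i, α (j l + 1) ≤ 1 / 2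
  · have e2 : ∑ c ∈ range M, Ft α g κ (Function.update j i c) * len α c =
        κ * m1 M g (len α) * ∏ l ∈ univ.erase i, g (j l) := by
      rw [m1, Finset.mul_sum, Finset.sum_mul]
      refine Finset.sum_congr rfl fun c hc => ?_
      have := mono (show c + 1 ≤ M from mem_range.1 hc)
      rw [Ft, if_pos, probb_prod g]
      · ring
      · rw [probb_sum fun c => α (c + 1)]
        linarith
    rw [e2, mul_pow, mul_pow, mul_assoc (κ ^ 2 * _), ← Finset.prod_pow,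
      ← Finset.prod_mul_distrib (f := fun l => g (j l) ^ 2)]
    refine mul_le_mul_of_nonneg_left ?_ hk
    nlinarith [mul_le_mul_of_nonneg_left h1 hw, mul_nonneg hw h0]
  · refine le_trans (mul_nonpos_of_nonneg_of_nonpos hk ?_)
      (mul_nonneg (sq_nonneg _) (Finset.prod_nonneg fun l _ => hl _))
    nlinarith [mul_le_mul_of_nonneg_left h1 hw, mul_le_mul_of_nonneg_left (not_le.1 h).le hw]

/-- Dyadic cells: `α 0 = 0`, `α (c + 1) = 2 ^ c * a`, `g c = (1 / 2) ^ c`. Then `len α 0 = a`,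
`len α (c + 1) = 2 ^ c * a`; by induction on `M`: `m1 = a (M + 1) / 2`, `a ≤ m2 ≤ 3 a / 2`
(`m2 = a (3 / 2 - (1 / 2) ^ M)`), `m3 = a ^ 2 (M + 1) / 2` for `M ≥ 1`. -/
theorem dyad (M : ℕ) (hM : 1 ≤ M) {a : ℝ} (ha : 0 < a) : ∃ α g : ℕ → ℝ, α 0 = 0 ∧ Monotone α ∧
    α M ≤ 2 ^ M * a / 2 ∧ (∀ c, 0 ≤ g c) ∧ m1 M g (len α) = a * (M + 1) / 2 ∧ a ≤ m2 M g (len α) ∧
    m2 M g (len α) ≤ 3 * a / 2 ∧
    ∑ c ∈ range M, g c ^ 2 * len α c * α (c + 1) = a ^ 2 * (M + 1) / 2 := by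
  obtain ⟨α, a0, a1⟩ : ∃ α : ℕ → ℝ, α 0 = 0 ∧ ∀ c, α (c + 1) = 2 ^ c * a :=
    ⟨fun c => Nat.casesOn c 0 fun c => 2 ^ c * a, rfl, fun _ => rfl⟩
  have l0 : len α 0 = a := by simp [len, a0, a1]
  have l1 : ∀ c, len α (c + 1) = 2 ^ c * a := fun c => by
    simp only [len, a1]; ring
  have hp : ∀ c : ℕ, ((1 : ℝ) / 2) ^ c * 2 ^ c = 1 := fun c => by
    rw [← mul_pow]; norm_num
  obtain ⟨N, rfl⟩ : ∃ N, M = N + 1 := ⟨M - 1, by omega⟩
  have e2 : ∀ N : ℕ, m2 (N + 1) (fun c => ((1 : ℝ) / 2) ^ c) (len α) =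
      a * (3 / 2 - (1 / 2) ^ (N + 1)) := by
    intro N
    induction N with
    | zero => simp [m2, l0]; norm_num
    | succ N ih =>
      unfold m2 at ih ⊢
      rw [sum_range_succ, ih, l1]
      linear_combination (a * (1 / 2) ^ N / 4) * hp N
  refine ⟨α, fun c => (1 / 2) ^ c, a0, monotone_nat_of_le_succ fun c => ?_, ?_,
    fun c => by positivity, ?_, ?_, ?_, ?_⟩
  · cases c with
    | zero => rw [a0, a1]; positivity
    | succ c =>
      have := l1 c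
      have h2 : 0 < 2 ^ c * a := by positivity
      unfold len at this
      linarith
  · rw [a1, pow_succ]; linarith
  · clear hM e2
    induction N with
    | zero => simp [m1, l0]; ring
    | succ N ih =>
      unfold m1 at ih ⊢
      rw [sum_range_succ, ih, l1]
      push_cast
      linear_combination (a / 2) * hp N
  · rw [e2]
    have : ((1 : ℝ) / 2) ^ (N + 1) ≤ 1 / 2 := by
      rw [pow_succ]
      have := pow_le_one₀ (n := N) (show (0 : ℝ) ≤ 1 / 2 by norm_num) (by norm_num)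
      linarith
    nlinarith
  · rw [e2]
    have : 0 < ((1 : ℝ) / 2) ^ (N + 1) := by positivity
    nlinarith
  · clear hM e2
    induction N with
    | zero => simp [l0, a1]; ring
    | succ N ih =>
      rw [sum_range_succ, ih, l1, a1]
      push_cast
      linear_combination (a ^ 2 / 2 * ((1 / 2) ^ N * 2 ^ N + 1)) * hp N

/-- Assume `ε ≤ 1` (else use `min ε 1`). `M ≥ 1` with `12 G μ0 ≤ ε (M + 1)`, `τ = 2 ^ M`, `k = G τ`,
`a = ε / (2 k (M + 1))`, so `2 ^ M a ≤ 1`. `m3 / m2 ≤ a (M + 1) / 2 = ε / (4 k)`, so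
`(m2 + m3) ^ (k - 1) ≤ m2 ^ (k - 1) (1 + ε / (4 k)) ^ k ≤ m2 ^ (k - 1) exp (ε / 4) ≤ m2 ^ (k - 1) (1 + ε / 2)`
(`Real.add_one_le_exp`, `Real.exp_bound_div_one_sub_of_interval` or `Real.abs_exp_sub_one_le`).
`τ m1 ^ 2 / m2 ≥ τ a (M + 1) ^ 2 / 6 = ε (M + 1) / (12 G)`. `κ = 1 / (1 + ∑ j ∈ Ce, ∏ g (j l))`, `F = Ft α g κ`. -/
theorem var (G : ℕ) (hG : 1 ≤ G) {ε : ℝ} (hε : 0 < ε) (μ0 : ℝ) : ∃ τ : ℕ, 2 ≤ τ ∧
    ∀ (ι : Type) [Fintype ι] [DecidableEq ι], Fintype.card ι = G * τ →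
      ∃ (M : ℕ) (α : ℕ → ℝ) (F : (ι → ℕ) → ℝ) (g : ℕ → ℝ) (κ : ℝ), Dom M α F g κ ∧
        0 ≤ m1 M g (len α) ∧ 0 < m2 M g (len α) ∧ μ0 * m2 M g (len α) ≤ τ * m1 M g (len α) ^ 2 ∧
        ∀ i, (1 - ε) * (κ ^ 2 * m1 M g (len α) ^ 2 * m2 M g (len α) ^ (Fintype.card ι - 1)) ≤
          Jv M F (len α) i := by
  obtain ⟨e, e0, e1, e2⟩ : ∃ e : ℝ, 0 < e ∧ e ≤ 1 ∧ e ≤ ε :=
    ⟨min ε 1, lt_min hε one_pos, min_le_right _ _, min_le_left _ _⟩
  obtain ⟨N, hN⟩ := exists_nat_ge (12 * G * μ0 / e)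
  obtain ⟨M, hM, hM2⟩ : ∃ M : ℕ, 1 ≤ M ∧ 12 * G * μ0 ≤ e * (M + 1) := by
    refine ⟨N + 1, by omega, ?_⟩
    rw [div_le_iff₀ e0] at hN
    push_cast
    nlinarith
  refine ⟨2 ^ M, ?_, fun ι _ _ hι => ?_⟩
  · exact (pow_one 2).symm.le.trans (Nat.pow_le_pow_right (by norm_num) hM)
  have G1 : (1 : ℝ) ≤ G := by exact_mod_cast hG
  have M0 : (0 : ℝ) ≤ M := Nat.cast_nonneg _
  have t0 : (0 : ℝ) < 2 ^ M := by positivity
  obtain ⟨a, ha, hae⟩ : ∃ a : ℝ, 0 < a ∧ a * (2 * (G * 2 ^ M) * (M + 1)) = e :=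
    ⟨e / (2 * (G * 2 ^ M) * (M + 1)), by positivity, by field_simp⟩
  obtain ⟨α, g, a0, mono, aM, g0, h1, h2, h3, h4⟩ := dyad M hM ha
  have ta : 0 < 2 ^ M * a := by positivity
  have aM' : α M ≤ 1 / 2 := by
    have : 2 ^ M * a * 1 ≤ 2 ^ M * a * (2 * G * (M + 1)) :=
      mul_le_mul_of_nonneg_left (by nlinarith) ta.le
    nlinarith
  have S0 : 0 ≤ ∑ j ∈ Ce ι M, ∏ l, g (j l) := sum_nonneg fun j _ => prod_nonneg fun l _ => g0 _
  obtain ⟨κ, κ0, hκ⟩ : ∃ κ : ℝ, 0 < κ ∧ κ * (1 + ∑ j ∈ Ce ι M, ∏ l, g (j l)) = 1 :=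
    ⟨1 / (1 + ∑ j ∈ Ce ι M, ∏ l, g (j l)), by positivity, by field_simp⟩
  have dom : ∀ j : ι → ℕ, |Ft α g κ j| ≤ κ * ∏ l, g (j l) := fun j => by
    have : 0 ≤ κ * ∏ l, g (j l) := mul_nonneg κ0.le (prod_nonneg fun l _ => g0 _)
    unfold Ft
    split_ifs
    · rw [abs_of_nonneg this]
    · rwa [abs_zero]
  have m20 : 0 < m2 M g (len α) := ha.trans_le h2
  refine ⟨M, α, Ft α g κ, g, κ, ⟨⟨a0, mono, by linarith, fun j hj => ?_, ?_⟩, g0, κ0, dom⟩,
    by rw [h1]; positivity, m20, ?_, fun i => le_trans ?_ (jv_ft (by omega) κ a0 mono aM' i)⟩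
  · by_contra hn
    exact hj (if_neg hn)
  · have := sum_le_sum fun j (_ : j ∈ Ce ι M) => dom j
    rw [← mul_sum] at this
    linarith
  · rw [h1]
    push_cast
    rcases le_total μ0 0 with c | c
    · exact (mul_nonpos_of_nonpos_of_nonneg c m20.le).trans (by positivity)
    · have b1 := mul_le_mul_of_nonneg_left h3 c
      have b2 : G * (μ0 * (3 * a / 2)) ≤ G * (2 ^ M * (a * (M + 1) / 2) ^ 2) := by
        have := mul_le_mul_of_nonneg_left hM2 ha.le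
        rw [← hae] at this
        nlinarith
      exact b1.trans (le_of_mul_le_mul_left b2 (by linarith))
  · rw [h4]
    have k0 : (0 : ℝ) ≤ ((Fintype.card ι - 1 : ℕ) : ℝ) := Nat.cast_nonneg _
    have k1 : ((Fintype.card ι - 1 : ℕ) : ℝ) ≤ G * 2 ^ M := by
      have : Fintype.card ι - 1 ≤ G * 2 ^ M := by omega
      exact_mod_cast this
    generalize Fintype.card ι - 1 = n at k0 k1 ⊢
    have x0 : 0 ≤ a * (M + 1) / 2 := by positivity
    have b1 : m2 M g (len α) + a ^ 2 * (M + 1) / 2 ≤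
        m2 M g (len α) * Real.exp (a * (M + 1) / 2) := by
      have c1 := mul_le_mul_of_nonneg_left (Real.add_one_le_exp (a * (M + 1) / 2)) m20.le
      have c2 := mul_le_mul_of_nonneg_right h2 x0
      nlinarith
    have b2 := pow_le_pow_left₀ (by positivity) b1 n
    rw [mul_pow, ← Real.exp_nat_mul] at b2
    have b3 : n * (a * (M + 1) / 2) ≤ e / 4 := by
      have := mul_le_mul_of_nonneg_right k1 x0
      nlinarith
    have b4 : Real.exp (n * (a * (M + 1) / 2)) ≤ 1 + e / 2 := by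
      have c1 := Real.abs_exp_sub_one_le (x := e / 4) (by rw [abs_of_pos (by linarith)]; linarith)
      rw [abs_of_pos (show 0 < e / 4 by linarith)] at c1
      have c2 := Real.exp_le_exp.2 b3
      have c3 := le_abs_self (Real.exp (e / 4) - 1)
      linarith
    have p0 : 0 < m2 M g (len α) ^ n := by positivity
    have b5 := mul_le_mul_of_nonneg_left b4 p0.le
    have b6 := mul_le_mul_of_nonneg_right e2 p0.le
    have b7 : (1 - ε) * m2 M g (len α) ^ n ≤ 3 * m2 M g (len α) ^ n -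
        2 * (m2 M g (len α) + a ^ 2 * (M + 1) / 2) ^ n := by nlinarith
    have b8 := mul_le_mul_of_nonneg_left b7
      (show 0 ≤ κ ^ 2 * m1 M g (len α) ^ 2 by positivity)
    linarith

end Pool.Agent.Lib.MP_c03ca8_nt.D
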