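import Pool.Agent.Lib.MP_c03ca8_nt.D.MainP
import Pool.Agent.Lib.MP_c03ca8_nt.D.Var
import Pool.Agent.Lib.MP_c03ca8_nt.D.Num
import Pool.Agent.Lib.MP_c03ca8_nt.H.DirC
import Pool.Agent.Lib.MP_c03ca8_nt.H.Fin

set_option autoImplicit false

noncomputable section

namespace Pool.Agent.Lib.MP_c03ca8_nt.D

open Finset Filter Q H
open P3 (Rough om xi Xi bxB bil Adm)
open scoped Classical

/-! Many good integers. Model: `H/CoreC.lean` (`many`). -/

theorem many_grp {c0 : ℝ} (hc0 : 0 < c0) (hc : c0 < 1 / 4) (G : ℕ) (hG : 1 ≤ G) : ∃ τ : ℕ, 1 ≤ τ ∧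
    ∀ h : Fin G × Fin τ → ℕ, Function.Injective h → (∀ p : ℕ, p.Prime → ∃ a, ∀ l, ¬ p ∣ a + h l) →
      ∀ lam : Fin G → ℝ, (∀ g, 0 < lam g) → ManyP h (Hv Prod.fst lam c0) := by
  obtain ⟨θ, b, ε, μ0, hθ0, hθ, hε, hnum⟩ := num_grp hc0 hc
  obtain ⟨τ, hτ2, hvar⟩ := var G hG hε μ0
  refine ⟨τ, by omega, fun h hinj adm lam hlam => ?_⟩
  have hcard : Fintype.card (Fin G × Fin τ) = G * τ := by simp
  obtain ⟨M, α, F, g, κ, hD, hp, hq, hμ, hJ⟩ := hvar (Fin G × Fin τ) hcard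
  have hk2 : 2 ≤ Fintype.card (Fin G × Fin τ) := by
    rw [hcard]
    nlinarith
  obtain ⟨s, t, hs, ht, ht1, htb, hn⟩ := hnum _ τ κ _ _ hk2 hD.κ0 hq hμ
  have hfib : ∀ g : Fin G, (univ.filter fun i : Fin G × Fin τ => i.1 = g).card = τ := fun g => by
    rw [show (univ.filter fun i : Fin G × Fin τ => i.1 = g) = ({g} : Finset (Fin G)) ×ˢ univ by
      ext ⟨a, b⟩
      simp [eq_comm]]
    simp
  obtain ⟨η, C, hη, hC, hm⟩ := main_grp hfib (fun g => (hlam g).le) hD (by omega) hθ0 ht htb hθ hs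
    hc0.le (iv_dom hD) hJ hn
  generalize kz (Fintype.card (Fin G × Fin τ)) τ θ b s t _ κ (m1 M g (len α)) (m2 M g (len α)) = z
    at hn hm
  obtain ⟨γ, hγ, hγ2, hd⟩ := dir_count (Fin G × Fin τ) ht ht1
  have hκ := hD.κ0
  have h0 : (0 : ℝ) ≤ c0 * (θ ^ Fintype.card (Fin G × Fin τ) *
      (κ ^ 2 * m2 M g (len α) ^ Fintype.card (Fin G × Fin τ) + t) + t) + (2 * τ + τ ^ 2) * t := by
    positivity
  have hτ0 : (0 : ℝ) < τ := by exact_mod_cast (by omega : 0 < τ)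
  have hz : 0 < z := (mul_pos_iff_of_pos_left hτ0).1 ((mul_pos_iff_of_pos_left (sub_pos.2 ht1)).1
    ((mul_pos_iff_of_pos_left (pow_pos hθ0 _)).1 (h0.trans_lt hn)))
  have hsum : ∑ i : Fin G × Fin τ, lam i.1 * z = (∑ g, lam g) * (τ * z) := by
    rw [Fintype.sum_prod_type, sum_mul]
    refine sum_congr rfl fun g _ => ?_
    simp only [sum_const, card_univ, Fintype.card_fin, nsmul_eq_mul]
    ring
  haveI : Nonempty (Fin G) := ⟨⟨0, hG⟩⟩
  have hΛ : 0 < ∑ g, lam g := sum_pos (fun g _ => hlam g) univ_nonempty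
  have hk : Fintype.card (Fin G × Fin τ) - 1 + 1 = Fintype.card (Fin G × Fin τ) := by omega
  refine ⟨η, hη, fun w1 => ?_⟩
  obtain ⟨w, hw, hw1⟩ := (Filter.Eventually.and (hm h γ hinj hγ) (eventually_ge_atTop w1)).exists
  obtain ⟨a, ha⟩ := exists_res h adm w
  obtain ⟨K, y0, δ, hK, hδ, hy⟩ := hd h (fun i => lam i.1 * z)
    (fun i => (mul_pos (hlam _) hz).le) (by rw [hsum]; positivity) (primorial w) a (primorial_pos w) ha
    (Fintype.card (Fin G × Fin τ) - 1) C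
    (fun x n => (∀ l, Rough ((x : ℝ) ^ η) (n + h l)) ∧
      Hv Prod.fst lam c0 (univ.filter fun l => (n + h l).Prime)) hC
    (fun y x n _ hyx hg => ⟨fun l => (hg.1 l).mono
      (Real.rpow_le_rpow (Nat.cast_nonneg y) (Nat.cast_le.2 hyx) hη.le), hg.2⟩) (by
      filter_upwards [hw, eventually_ge_atTop 1] with x hx hx1
      have hx0 : (0 : ℝ) ≤ x := Nat.cast_nonneg x
      have hc : ⌈γ * x⌉₊ ≤ x := Nat.ceil_le.2 (by nlinarith)
      have h4 := hx a ⌈γ * x⌉₊ ha (Nat.le_ceil _) hc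
      have hl : 0 ≤ Real.log x := Real.log_natCast_nonneg x
      unfold Iw at h4
      refine h4.trans (add_le_add (le_of_eq (by rw [hsum]; ring)) (mul_le_mul_of_nonneg_left
        (Nat.cast_le.2 (card_le_card ?_)) (mul_nonneg hC.le (pow_nonneg hl _))))
      intro n hn
      simp only [gdP, mem_filter] at hn ⊢
      exact hn)
  refine ⟨w, a, K, y0, δ, hw1, ha, hK, hδ, fun y hy0 => ?_⟩
  have h7 := hy y hy0
  rw [hk] at h7
  refine h7.trans (Nat.cast_le.2 (card_le_card fun n hn => ?_))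
  simp only [gdP, mem_filter] at hn ⊢
  exact hn

end Pool.Agent.Lib.MP_c03ca8_nt.D
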