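import Pool.Agent.Lib.MP_c03ca8_nt.H.GdD

set_option autoImplicit false

noncomputable section

namespace Pool.Agent.Lib.MP_c03ca8_nt.D

open Finset Filter Q H
open P3 (Rough om xi Xi bxB bil Adm)
open scoped Classical

/-! Groups of forms: definitions. -/

/-- The `n ∈ I` with `n + k` and `n + k'` prime. -/
def prm2 (I : Finset ℕ) (k k' : ℕ) : Finset ℕ := I.filter fun n => (n + k).Prime ∧ (n + k').Prime

/-- First moment of `g`. -/
def m1 (M : ℕ) (g μ : ℕ → ℝ) : ℝ := ∑ c ∈ range M, g c * μ c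

/-- Second moment of `g`. -/
def m2 (M : ℕ) (g μ : ℕ → ℝ) : ℝ := ∑ c ∈ range M, g c ^ 2 * μ c

/-- The gain for one form. -/
def kz (k τ : ℕ) (θ b s t J κ p q : ℝ) : ℝ :=
  (2 / s - 1 / s ^ 2) * (J - t) - τ * θ * (κ ^ 2 * (p + t) ^ 4 * (q + t) ^ (k - 2)) / (s ^ 2 * (b - t))

variable {ι : Type} [Fintype ι] [DecidableEq ι]

/-- All forms are rough and the set of prime forms has the property `Φ`. -/
def gdP (h : ι → ℕ) (Φ : Finset ι → Prop) (y : ℝ) (I : Finset ℕ) : Finset ℕ :=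
  I.filter fun n => (∀ l, Rough y (n + h l)) ∧ Φ (univ.filter fun l => (n + h l).Prime)

/-- Many good integers in `(y, K y]`. -/
def ManyP (h : ι → ℕ) (Φ : Finset ι → Prop) : Prop := ∃ η : ℝ, 0 < η ∧ ∀ w1 : ℕ,
  ∃ (w a K y0 : ℕ) (δ : ℝ), w1 ≤ w ∧
  (∀ l, Nat.Coprime (a + h l) (primorial w)) ∧ 1 ≤ K ∧ 0 < δ ∧ ∀ y : ℕ, y0 ≤ y →
    δ * y / Real.log y ^ Fintype.card ι ≤
      (gdP h Φ ((y : ℝ) ^ η) (cls y (K * y - y) (primorial w) a)).card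

/-- The groups met by `S` carry the share `c0` of the weight. -/
def Hv {Γ : Type} [Fintype Γ] [DecidableEq Γ] (grp : ι → Γ) (lam : Γ → ℝ) (c0 : ℝ) (S : Finset ι) :
    Prop := c0 * ∑ g, lam g ≤ ∑ g ∈ S.image grp, lam g

/-- A step function below a product. -/
structure Dom (M : ℕ) (α : ℕ → ℝ) (F : (ι → ℕ) → ℝ) (g : ℕ → ℝ) (κ : ℝ) : Prop where
  stp : Stp M α F
  g0 : ∀ c, 0 ≤ g c
  κ0 : 0 < κ
  dom : ∀ j, |F j| ≤ κ * ∏ l, g (j l)

end Pool.Agent.Lib.MP_c03ca8_nt.D
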