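import Pool.Agent.Lib.MP_c03ca8_nt.D.Defs
import Pool.Agent.Lib.MP_c03ca8_nt.H.CellB

set_option autoImplicit false

noncomputable section

namespace Pool.Agent.Lib.MP_c03ca8_nt.D

open Finset Filter Q H
open P3 (Rough om xi Xi bxB bil Adm)
open scoped Classical

/-! The double marginal of a dominated coefficient. -/

variable {ι : Type} [Fintype ι] [DecidableEq ι]

theorem dom_zm {P : Finset ℕ} (hP : ∀ q ∈ P, q.Prime) {Z : (ι → Finset ℕ) → ℝ} {g : ι → Finset ℕ → ℝ}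
    {κ : ℝ} (hZ : ∀ T, |Z T| ≤ κ * ∏ l, g l (T l)) (i : ι) (T : ι → Finset ℕ) :
    |Zm P i Z T| ≤ (κ * ∑ U ∈ P.powerset, g i U * wt U) *
      ∏ l, Function.update g i (fun U => if U = ∅ then 1 else 0) l (T l) := by
  rw [← mul_prod_erase univ _ (mem_univ i), Function.update_self,
    prod_congr rfl fun l hl => by rw [Function.update_of_ne (ne_of_mem_erase hl)], Zm]
  split_ifs
  · rw [one_mul, mul_sum, sum_mul]
    refine (abs_sum_le_sum_abs _ _).trans (sum_le_sum fun U hU => ?_)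
    have h1 := expand_wt_nonneg fun q hq => hP q (mem_powerset.1 hU hq)
    rw [abs_mul, abs_of_nonneg h1]
    refine (mul_le_mul_of_nonneg_right (hZ _) h1).trans_eq ?_
    rw [tens_prod]
    ring
  · simp

/-- With `s = ∑ G U * wt U`: `|Zm j (Zm i Z) T| ≤ κ s ^ 2 ∏ l ≠ i, j, G (T l)` if `T i = T j = ∅`, and `0`
otherwise (`tens_prod`; `0 ≤ wt U` as in `bd_zm`). Then `Finset.prod_univ_sum` with the factor
`if U = ∅ then 1 else 0` at `i` and `j` (as in `dg_zm`). -/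
theorem dg_dom {P : Finset ℕ} (hP : ∀ q ∈ P, q.Prime) {Z : (ι → Finset ℕ) → ℝ} {G : Finset ℕ → ℝ} {κ : ℝ}
    (hG : ∀ U, 0 ≤ G U) (hκ : 0 ≤ κ) (hZ : ∀ T, |Z T| ≤ κ * ∏ l, G (T l)) {i j : ι} (hij : i ≠ j) :
    Dg P (Zm P j (Zm P i Z)) ≤ κ ^ 2 * (∑ U ∈ P.powerset, G U * wt U) ^ 4 *
      (∑ U ∈ P.powerset, G U ^ 2 * wt U) ^ (Fintype.card ι - 2) := by
  have _ := hG
  have _ := hκ
  have h := dom_zm hP (dom_zm hP (g := fun _ => G) hZ i) j
  rw [Function.update_of_ne hij.symm] at h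
  generalize hd : (fun U : Finset ℕ => if U = ∅ then (1 : ℝ) else 0) = δ at h
  have h1 : ∑ U ∈ P.powerset, δ U ^ 2 * wt U = 1 := by simp [← hd, wt]
  refine (sum_le_sum fun T hT => mul_le_mul_of_nonneg_right (sq_le_sq' (abs_le.1 (h T)).1 (abs_le.1 (h T)).2)
    (prod_nonneg fun l _ => expand_wt_nonneg fun q hq =>
      hP q (mem_powerset.1 (Fintype.mem_piFinset.1 hT l) hq))).trans_eq ?_
  simp only [mul_pow, mul_assoc, ← prod_pow, ← prod_mul_distrib]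
  rw [← mul_sum, ← mul_sum, ← mul_sum, ← prod_univ_sum (fun _ => P.powerset)
    fun l U => Function.update (Function.update (fun _ => G) i δ) j δ l U ^ 2 * wt U,
    ← mul_prod_erase univ _ (mem_univ j), ← mul_prod_erase _ _ (mem_erase.2 ⟨hij, mem_univ i⟩),
    Function.update_self, Function.update_of_ne hij, Function.update_self, h1,
    prod_congr rfl fun l hl => by
      rw [Function.update_of_ne (ne_of_mem_erase (mem_of_mem_erase hl)),
        Function.update_of_ne (ne_of_mem_erase hl)],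
    prod_const, card_erase_of_mem (mem_erase.2 ⟨hij, mem_univ i⟩), card_erase_of_mem (mem_univ j),
    card_univ, Nat.sub_sub]
  ring

theorem dom_cel (R : ℝ) (α : ℕ → ℝ) (c : ℕ) (U : Finset ℕ) : 0 ≤ cel R α c U := by
  unfold cel
  split_ifs <;> simp

theorem dom_mom (P : Finset ℕ) (M : ℕ) (g : ℕ → ℝ) (R : ℝ) (α : ℕ → ℝ) :
    ∑ U ∈ P.powerset, (∑ c ∈ range M, g c * cel R α c U) * wt U =
      ∑ c ∈ range M, g c * mas P R α c := by
  simp only [mas, sum_mul, mul_sum, mul_assoc]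
  exact sum_comm

/-- `dg_dom` for the step function of `g`. -/
theorem dg_dom_zc {P : Finset ℕ} (hP : ∀ q ∈ P, q.Prime) {M : ℕ} {α : ℕ → ℝ} {F : (ι → ℕ) → ℝ}
    {g : ℕ → ℝ} {κ R : ℝ} (hD : Dom M α F g κ) (hR : 1 ≤ R) {i j : ι} (hij : i ≠ j) :
    Dg P (Zm P j (Zm P i (Zc M F R α))) ≤ κ ^ 2 * m1 M g (mas P R α) ^ 4 *
      m2 M g (mas P R α) ^ (Fintype.card ι - 2) := by
  have e : ∀ U, (∑ c ∈ range M, g c * cel R α c U) ^ 2 = ∑ c ∈ range M, g c ^ 2 * cel R α c U :=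
    fun U => by
      rw [sq, sum_mul_sum]
      refine sum_congr rfl fun c hc => ?_
      simp only [mul_mul_mul_comm (g c), cel_mul hR hD.stp.mono, mul_ite, mul_zero, sum_ite_eq, hc,
        if_true, sq]
  have h := dg_dom hP (Z := Zc M F R α) (G := fun U => ∑ c ∈ range M, g c * cel R α c U)
    (fun U => sum_nonneg fun c _ => mul_nonneg (hD.g0 c) (dom_cel R α c U)) hD.κ0.le
    (fun T => by
      rw [prod_univ_sum, mul_sum]
      refine (abs_sum_le_sum_abs _ _).trans (sum_le_sum fun k _ => ?_)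
      have h0 : 0 ≤ ∏ l, cel R α (k l) (T l) := prod_nonneg fun l _ => dom_cel _ _ _ _
      rw [abs_mul, abs_of_nonneg h0, prod_mul_distrib, ← mul_assoc]
      exact mul_le_mul_of_nonneg_right (hD.dom k) h0) hij
  simpa only [e, dom_mom, m1, m2] using h

theorem dom_near {M : ℕ} {g μ ν : ℕ → ℝ} {p k t : ℝ} (hg : ∀ c, 0 ≤ g c) (hp : 0 < p)
    (h : ∀ c < M, |μ c / p - ν c| ≤ k) (ht : k * ∑ c ∈ range M, g c ≤ t) :
    ∑ c ∈ range M, g c * μ c ≤ p * (∑ c ∈ range M, g c * ν c + t) := by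
  refine le_trans ?_ (mul_le_mul_of_nonneg_left (add_le_add le_rfl ht) hp.le)
  rw [mul_sum, ← sum_add_distrib, mul_sum]
  refine sum_le_sum fun c hc => ?_
  have h1 := (abs_le.1 (h c (mem_range.1 hc))).2
  rw [sub_le_iff_le_add, div_le_iff₀ hp] at h1
  linarith [mul_le_mul_of_nonneg_left h1 (hg c)]

/-- The double marginal for large `w` and `x`. -/
theorem dom_ev {M : ℕ} {α : ℕ → ℝ} {F : (ι → ℕ) → ℝ} {g : ℕ → ℝ} {κ : ℝ} (hD : Dom M α F g κ)
    {θ t : ℝ} (hθ0 : 0 < θ) (hθ : θ ≤ 1) (ht : 0 < t) : ∀ᶠ w : ℕ in atTop, ∀ᶠ x : ℕ in atTop,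
      ∀ i j : ι, i ≠ j → Dg (Ps w x) (Zm (Ps w x) j (Zm (Ps w x) i (Zc M F ((x : ℝ) ^ θ) α))) ≤
        (θ * LL w x) ^ (Fintype.card ι + 2) * (κ ^ 2 * (m1 M g (len α) + t) ^ 4 *
          (m2 M g (len α) + t) ^ (Fintype.card ι - 2)) := by
  have s1 : 0 ≤ ∑ c ∈ range M, g c := sum_nonneg fun c _ => hD.g0 c
  have s2 : 0 ≤ ∑ c ∈ range M, g c ^ 2 := sum_nonneg fun c _ => sq_nonneg _
  have s3 : 0 < 1 + ∑ c ∈ range M, g c + ∑ c ∈ range M, g c ^ 2 := by linarith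
  have k : ∀ s, s ≤ 1 + ∑ c ∈ range M, g c + ∑ c ∈ range M, g c ^ 2 →
      t / (1 + ∑ c ∈ range M, g c + ∑ c ∈ range M, g c ^ 2) * s ≤ t := fun s hs =>
    (mul_le_mul_of_nonneg_left hs (div_pos ht s3).le).trans_eq (div_mul_cancel₀ t s3.ne')
  filter_upwards [mas_near hD.stp.a0 hD.stp.mono hD.stp.aM hθ0 hθ (div_pos ht s3)] with w hw
  filter_upwards [hw, eventually_ge_atTop 1, (cellb_LL w).eventually_gt_atTop 0]
    with x hx hx1 hL i j hij
  have hP : ∀ q ∈ Ps w x, q.Prime := fun q hq => Nat.prime_of_mem_primesLE (mem_filter.1 hq).1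
  have hp : 0 < θ * LL w x := mul_pos hθ0 hL
  have m0 : ∀ c, 0 ≤ mas (Ps w x) ((x : ℝ) ^ θ) α c := fun c => sum_nonneg fun U hU =>
    mul_nonneg (dom_cel _ _ _ _) (expand_wt_nonneg fun q hq => hP q (mem_powerset.1 hU hq))
  have h1 := pow_le_pow_left₀ (sum_nonneg fun c _ => mul_nonneg (hD.g0 c) (m0 c))
    (dom_near hD.g0 hp hx (k _ (by linarith))) 4
  have h2 := pow_le_pow_left₀ (sum_nonneg fun c _ => mul_nonneg (sq_nonneg (g c)) (m0 c))
    (dom_near (fun c => sq_nonneg (g c)) hp hx (k _ (by linarith))) (Fintype.card ι - 2)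
  have h3 : Fintype.card ι + 2 = 4 + (Fintype.card ι - 2) := by
    have := Fintype.one_lt_card_iff.2 ⟨i, j, hij⟩
    omega
  refine (dg_dom_zc hP hD (Real.one_le_rpow (by exact_mod_cast hx1) hθ0.le) hij).trans
    ((mul_le_mul (mul_le_mul_of_nonneg_left h1 (sq_nonneg κ)) h2 (pow_nonneg (sum_nonneg
      fun c _ => mul_nonneg (sq_nonneg _) (m0 c)) _) (by positivity)).trans_eq ?_)
  rw [h3, pow_add, mul_pow (θ * LL w x), mul_pow (θ * LL w x), m1, m2]
  ring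

end Pool.Agent.Lib.MP_c03ca8_nt.D
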