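import Pool.Agent.Lib.MP_c03ca8_nt.D.Defs
import Pool.Agent.Lib.MP_c03ca8_nt.H.FifC

set_option autoImplicit false

noncomputable section

namespace Pool.Agent.Lib.MP_c03ca8_nt.D

open Finset Filter Q H
open P3 (Rough om xi Xi bxB bil Adm)
open scoped Classical

/-! Intervals between fifth powers. A copy of `H.fifth` for an arbitrary property of the prime forms. -/

variable {ι : Type} [Fintype ι] [DecidableEq ι]

theorem fifthP {h : ι → ℕ} (hinj : Function.Injective h) {Φ : Finset ι → Prop} (hc : ManyP h Φ) :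
    ∃ c : ℝ, 0 < c ∧ ∃ N0 : ℕ, ∀ N : ℕ, N0 ≤ N →
      c * N ≤ ((Icc 1 N).filter fun n => ∃ u : ℕ, n ^ 5 < u ∧ (∀ l, u + h l < (n + 1) ^ 5) ∧
        Φ (univ.filter fun l => (u + h l).Prime)).card := by
  obtain ⟨η, hη, hc⟩ := hc
  obtain ⟨η', hη', hη1, hη2⟩ : ∃ η' : ℝ, 0 < η' ∧ 2 * η' ≤ η ∧
      η' * (10 * (Fintype.card ι + 1)) ≤ 1 := by
    refine ⟨min (η / 2) (1 / (10 * (Fintype.card ι + 1))), lt_min (by linarith) (by positivity),
      by linarith [min_le_left (η / 2) (1 / (10 * ((Fintype.card ι : ℝ) + 1)))], ?_⟩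
    rw [← le_div_iff₀ (by positivity)]
    exact min_le_right _ _
  have hk0 : 0 ≤ η' * Fintype.card ι := by positivity
  obtain ⟨C, hC, hrb⟩ := rbk ι hη' (by linarith) (by linarith)
  obtain ⟨w0, hw0⟩ := eventually_atTop.1
    (Eventually.and (hrb h hinj) (eventually_all.2 fun l => eventually_gt_atTop (h l)))
  obtain ⟨w, a, K, y0, δ, hw1, hcop, hK, hδ, hy⟩ := hc w0
  obtain ⟨hE0, hlt⟩ := hw0 w hw1
  obtain ⟨x0, hE1⟩ := eventually_atTop.1 hE0
  have hE := fun (x X : ℕ) (h1 : x0 ≤ x) (h2 : X ≤ x) =>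
    hE1 x h1 a X hcop (by rw [zero_mul]; exact Nat.cast_nonneg X) h2
  clear hE0 hE1 hw0 hrb hc
  generalize Fintype.card ι = k at hE hy
  have hcw := cW_pos w
  have hW : (0 : ℝ) < primorial w := by exact_mod_cast primorial_pos w
  have hKR : (1 : ℝ) ≤ K := by exact_mod_cast hK
  obtain ⟨C', hC'⟩ : ∃ C' : ℝ, C' = C * (31 * 2 ^ k) / (primorial w * cW w ^ k) := ⟨_, rfl⟩
  have hC0 : 0 < C' := by rw [hC']; positivity
  obtain ⟨D, hD⟩ : ∃ D : ℝ, D = 5 ^ k * k.factorial := ⟨_, rfl⟩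
  have hD0 : 0 < D := by rw [hD]; positivity
  refine ⟨δ / (4 * K * C'), by positivity,
    K * (y0 + K + 32 * (x0 + w + 31 ^ 5)) + ⌈4 * D * (w + 1) * K / δ⌉₊, fun N hN => ?_⟩
  obtain ⟨y, hyN⟩ : ∃ y, y = N ^ 5 / K := ⟨_, rfl⟩
  obtain ⟨S, hS⟩ : ∃ S, S = (Icc 1 N).filter fun n => ∃ u : ℕ, n ^ 5 < u ∧
    (∀ l, u + h l < (n + 1) ^ 5) ∧ Φ (univ.filter fun l => (u + h l).Prime) := ⟨_, rfl⟩
  rw [← hS]
  have hy1 : y0 + K + 32 * (x0 + w + 31 ^ 5) ≤ y := by
    rw [hyN, Nat.le_div_iff_mul_le hK, mul_comm]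
    exact (le_trans (Nat.le_add_right _ _) hN).trans (Nat.le_self_pow (by norm_num) N)
  have hbig : 4 * D * (w + 1) * K ≤ δ * N := by
    have e1 : 4 * D * (w + 1) * K / δ ≤ (N : ℝ) :=
      (Nat.le_ceil _).trans (by exact_mod_cast le_trans (Nat.le_add_left _ _) hN)
    rwa [div_le_iff₀ hδ, mul_comm (N : ℝ)] at e1
  clear hN
  have hy2 : 32 * (x0 + w + 31 ^ 5) ≤ y := (Nat.le_add_left _ _).trans hy1
  have hy3 : y0 + K ≤ y := (Nat.le_add_right _ _).trans hy1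
  have hy4 : 1024 ≤ y :=
    le_trans (le_trans (by norm_num) (Nat.mul_le_mul_left 32 (Nat.le_add_left _ _))) hy2
  clear hy1
  have hKy : K * y ≤ N ^ 5 := by rw [hyN]; exact Nat.mul_div_le _ _
  have hKy2 : N ^ 5 ≤ 2 * (K * y) := by
    have e1 : N ^ 5 < K * (y + 1) := by rw [hyN]; exact Nat.lt_mul_div_succ _ hK
    have e2 : K * (y + 1) ≤ K * (2 * y) := Nat.mul_le_mul_left _ (by omega)
    have e3 : K * (2 * y) = 2 * (K * y) := by ring
    omega
  have hyK : y ≤ K * y := Nat.le_mul_of_pos_left _ hK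
  have hN1 : 1 ≤ N := by
    rcases N with _ | N
    · omega
    · omega
  have hNR : (1 : ℝ) ≤ N := by exact_mod_cast hN1
  have hyR : (1024 : ℝ) ≤ y := by exact_mod_cast hy4
  have hly : 0 < Real.log y := Real.log_pos (by linarith)
  obtain ⟨B, hB⟩ : ∃ B : ℝ, B = C' * ((N : ℝ) ^ 4 / Real.log y ^ k) := ⟨_, rfl⟩
  have hB0 : 0 ≤ B := by rw [hB]; positivity
  obtain ⟨G, hG⟩ : ∃ G, G = gdP h Φ ((y : ℝ) ^ η) (cls y (K * y - y) (primorial w) a) := ⟨_, rfl⟩
  have hmem : ∀ u ∈ G, y < u ∧ u ≤ K * y ∧ u ≡ a [MOD primorial w] ∧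
      (∀ l, Rough ((y : ℝ) ^ η) (u + h l)) ∧
        Φ (univ.filter fun l => (u + h l).Prime) := by
    intro u hu
    rw [hG] at hu
    obtain ⟨u1, u2⟩ := mem_filter.1 hu
    obtain ⟨u3, u4⟩ := mem_filter.1 u1
    rw [mem_Ioc] at u3
    exact ⟨u3.1, by omega, u4, u2⟩
  have hcov : G ⊆ (range N).biUnion fun n => G.filter fun u => n ^ 5 < u ∧ u ≤ (n + 1) ^ 5 := by
    intro u hu
    obtain ⟨m1, m2, -⟩ := hmem u hu
    obtain ⟨n, n1, n2⟩ := P3.fifth_root u (by omega)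
    refine mem_biUnion.2 ⟨n, mem_range.2 ?_, mem_filter.2 ⟨hu, n1, n2⟩⟩
    exact lt_of_pow_lt_pow_left₀ 5 (Nat.zero_le _) (by omega)
  have hone : ∀ n ∈ range N, ((G.filter fun u => n ^ 5 < u ∧ u ≤ (n + 1) ^ 5).card : ℝ) ≤
      (w + 1) + if n ∈ S then B else 0 := by
    intro n hn
    have hnN := (mem_range.1 hn).le
    rcases (G.filter fun u => n ^ 5 < u ∧ u ≤ (n + 1) ^ 5).eq_empty_or_nonempty with e | ⟨m0, hm0⟩
    · rw [e, card_empty, Nat.cast_zero]
      split_ifs <;> positivity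
    obtain ⟨hm1, hm2, hm3⟩ := mem_filter.1 hm0
    obtain ⟨m1, m2, -⟩ := hmem m0 hm1
    split_ifs with hs
    · have hsub : (G.filter fun u => n ^ 5 < u ∧ u ≤ (n + 1) ^ 5) ⊆
          ar h ((y : ℝ) ^ η) (cls (n ^ 5) ((n + 1) ^ 5 - n ^ 5) (primorial w) a) := by
        intro u hu
        obtain ⟨k1, k2, k3⟩ := mem_filter.1 hu
        obtain ⟨-, -, k4, k5⟩ := hmem u k1
        simp only [ar, cls, mem_filter, mem_Ioc]
        exact ⟨⟨⟨k2, by omega⟩, k4⟩, k5.1⟩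
      have := fifc_one (N := N) (n := n) (K := K) (y := y) (η := η) hC hη' hη1 hE (by omega) hy2
        hnN (by omega) (by omega)
      rw [← hC', ← hB] at this
      have h3 := (Nat.cast_le (α := ℝ)).2 (card_le_card hsub)
      have h4 : (0 : ℝ) ≤ w + 1 := by positivity
      linarith
    · have hn1 : 1 ≤ n := by
        rcases n with _ | n
        · omega
        · omega
      have hsub : (G.filter fun u => n ^ 5 < u ∧ u ≤ (n + 1) ^ 5) ⊆
          Icc ((n + 1) ^ 5 - w) ((n + 1) ^ 5) := by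
        intro u hu
        obtain ⟨k1, k2, k3⟩ := mem_filter.1 hu
        obtain ⟨-, -, -, k5⟩ := hmem u k1
        refine mem_Icc.2 ⟨?_, k3⟩
        by_contra hcon
        refine hs (hS ▸ mem_filter.2 ⟨mem_Icc.2 ⟨hn1, hnN⟩, u, k2, fun l => ?_, k5.2⟩)
        have := hlt l
        omega
      have h3 := card_le_card hsub
      rw [Nat.card_Icc] at h3
      rw [add_zero]
      exact_mod_cast h3.trans (by omega)
  have htot : (G.card : ℝ) ≤ N * (w + 1) + S.card * B := by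
    calc (G.card : ℝ) ≤ ∑ n ∈ range N,
          ((G.filter fun u => n ^ 5 < u ∧ u ≤ (n + 1) ^ 5).card : ℝ) := by
          exact_mod_cast (card_le_card hcov).trans card_biUnion_le
      _ ≤ ∑ n ∈ range N, ((w + 1 : ℝ) + if n ∈ S then B else 0) := sum_le_sum hone
      _ = N * (w + 1) + ((range N).filter fun n => n ∈ S).card * B := by
          rw [sum_add_distrib, ← sum_filter]
          simp only [sum_const, card_range, nsmul_eq_mul]
      _ ≤ _ := by
          gcongr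
          exact fun n hn => (mem_filter.1 hn).2
  have hlow := hy y (by omega)
  rw [← hG] at hlow
  have hKyR : (N : ℝ) ^ 5 ≤ 2 * (K * y) := by exact_mod_cast hKy2
  have hl4 : Real.log y ^ k ≤ D * (N : ℝ) ^ 2 := by
    have e1 : (y : ℝ) ≤ (N : ℝ) ^ 5 := by exact_mod_cast hyK.trans hKy
    have e2 := Real.log_le_log (by linarith) e1
    rw [Real.log_pow] at e2
    have e3 := pow_le_pow_left₀ hly.le e2 k
    rw [mul_pow, Nat.cast_ofNat] at e3
    rw [hD, mul_assoc]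
    exact e3.trans (mul_le_mul_of_nonneg_left (fifc_log k N hN1) (by positivity))
  have hL : 0 < Real.log y ^ k := by positivity
  have hsm : N * (w + 1) * Real.log y ^ k ≤ δ * y / 2 := by
    have e1 : N * (w + 1) * Real.log y ^ k ≤ N * (w + 1) * (D * (N : ℝ) ^ 2) := by gcongr
    have e2 : 4 * D * (w + 1) * K * (N : ℝ) ^ 3 ≤ δ * N * (N : ℝ) ^ 4 :=
      mul_le_mul hbig (pow_le_pow_right₀ hNR (by norm_num)) (by positivity) (by positivity)
    have e3 : δ * (N : ℝ) ^ 5 ≤ δ * (2 * (K * y)) := by gcongr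
    have e4 : K * (N * (w + 1) * (D * (N : ℝ) ^ 2)) ≤ K * (δ * y / 2) := by linarith
    exact e1.trans (le_of_mul_le_mul_left e4 (by linarith))
  have hfin : δ * y / 2 ≤ S.card * C' * (N : ℝ) ^ 4 := by
    have e1 := hlow.trans htot
    rw [div_le_iff₀ hL, hB] at e1
    have e2 : (N * (w + 1) + S.card * (C' * ((N : ℝ) ^ 4 / Real.log y ^ k))) * Real.log y ^ k =
        N * (w + 1) * Real.log y ^ k + S.card * C' * (N : ℝ) ^ 4 := by field_simp
    linarith
  rw [div_mul_eq_mul_div, div_le_iff₀ (by positivity)]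
  have e3 : δ * (N : ℝ) ^ 5 ≤ δ * (2 * (K * y)) := by gcongr
  have e5 : K * (δ * y / 2) ≤ K * (S.card * C' * (N : ℝ) ^ 4) := by gcongr
  have e6 : δ * N * (N : ℝ) ^ 4 ≤ S.card * (4 * K * C') * (N : ℝ) ^ 4 := by linarith
  exact le_of_mul_le_mul_right e6 (by positivity)

end Pool.Agent.Lib.MP_c03ca8_nt.D
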