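import Pool.Agent.Lib.MP_c03ca8_nt.D.Box

set_option autoImplicit false

namespace Pool.Agent.Lib.MP_c03ca8_nt.D

open Finset Filter
open scoped Classical

/-! From heavy cliques in boxes to the share of good sets. -/

theorem clq_num {c ε : ℝ} (hc : 0 < c) (hε : 0 < ε) (m : ℕ) :
    ∀ᶠ G : ℕ in atTop, (m : ℝ) ≤ c * G ∧ (c ^ m - ε) * (G : ℝ) ^ m ≤ (c * G - m) ^ m := by
  have h0 : Tendsto (fun G : ℕ => c - (m : ℝ) / G) atTop (nhds (c - 0)) :=
    tendsto_const_nhds.sub (tendsto_const_div_atTop_nhds_zero_nat _)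
  rw [sub_zero] at h0
  filter_upwards [(h0.pow m).eventually (lt_mem_nhds (sub_lt_self (c ^ m) hε)),
    h0.eventually (lt_mem_nhds hc), eventually_gt_atTop 0] with G h1 h2 h3
  have hG : (0 : ℝ) < G := by exact_mod_cast h3
  have he : c * G - m = (c - m / G) * G := by field_simp
  refine ⟨by nlinarith [mul_pos h2 hG], ?_⟩
  rw [he, mul_pow]
  gcongr

/-- The weights `1 / (largest clique through g)`. -/
theorem clique {c ε : ℝ} (hc : 0 < c) (hε : 0 < ε) {m : ℕ} (hm : 1 ≤ m) :
    ∀ᶠ G : ℕ in atTop, ∀ P : Finset (Finset (Fin G)), (∀ T ∈ P, T.card = m + 1) →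
      (∀ s : Fin G → ℕ, (∀ g, 1 ≤ s g ∧ s g ≤ G) → ∃ S : Finset (Fin G),
        c * ∑ g, (1 / (s g : ℝ)) ≤ ∑ g ∈ S, (1 / (s g : ℝ)) ∧ ∀ T ⊆ S, T.card = m + 1 → T ∈ P) →
      (c ^ m - ε) * (G.choose (m + 1) : ℝ) ≤ P.card := by
  filter_upwards [clq_num hc hε m, eventually_gt_atTop 0] with G ⟨hG1, hG2⟩ hG0 P hP hyp
  have hG : (0 : ℝ) < G := by exact_mod_cast hG0
  set C : Fin G → Finset (Finset (Fin G)) := fun g =>
    univ.filter fun S => g ∈ S ∧ ∀ T ⊆ S, T.card = m + 1 → T ∈ P with hC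
  have hne : ∀ g, ({g} : Finset (Fin G)) ∈ C g := fun g => by
    refine mem_filter.2 ⟨mem_univ _, mem_singleton_self _, fun T hT h => ?_⟩
    have := card_le_card hT
    rw [card_singleton] at this; omega
  set s : Fin G → ℕ := fun g => (C g).sup card with hs
  have hs1 : ∀ g, 1 ≤ s g ∧ s g ≤ G := fun g =>
    ⟨(card_singleton g).ge.trans (le_sup (f := card) (hne g)),
      Finset.sup_le fun S _ => by simpa using card_le_univ S⟩
  have hs0 : ∀ g, (0 : ℝ) < s g := fun g => by exact_mod_cast (hs1 g).1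
  obtain ⟨S, hS1, hS2⟩ := hyp s hs1
  have h1 : ∑ g ∈ S, (1 / (s g : ℝ)) ≤ 1 := by
    rcases S.eq_empty_or_nonempty with rfl | hne'
    · simp
    have hSc : (0 : ℝ) < S.card := by exact_mod_cast hne'.card_pos
    calc ∑ g ∈ S, (1 / (s g : ℝ)) ≤ ∑ _g ∈ S, (1 / (S.card : ℝ)) := sum_le_sum fun g hg => by
          refine one_div_le_one_div_of_le hSc ?_
          exact_mod_cast le_sup (f := card) (mem_filter.2 ⟨mem_univ _, hg, hS2⟩ : S ∈ C g)
      _ = 1 := by rw [sum_const, nsmul_eq_mul]; field_simp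
  set x : Fin G → ℝ := fun g => ((s g - m : ℕ) : ℝ) with hx
  have h2 : G * (c * G - m) ≤ ∑ g, x g := by
    have h3 : ∀ g, 2 * (c * G) - (c * G) ^ 2 * (1 / (s g : ℝ)) - m ≤ x g := fun g => by
      have h4 : (s g : ℝ) - m ≤ x g := by
        have : s g ≤ (s g - m) + m := by omega
        have : (s g : ℝ) ≤ x g + m := by simp only [hx]; exact_mod_cast this
        linarith
      have h5 : 2 * (c * G) - s g ≤ (c * G) ^ 2 * (1 / (s g : ℝ)) := by
        rw [mul_one_div, le_div_iff₀ (hs0 g)]; nlinarith [sq_nonneg (c * G - s g)]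
      linarith
    have h6 := sum_le_sum fun g (_ : g ∈ (univ : Finset (Fin G))) => h3 g
    simp only [sum_sub_distrib, sum_const, card_univ, Fintype.card_fin, nsmul_eq_mul,
      ← mul_sum] at h6
    have h7 : (c * G) ^ 2 * ∑ g, (1 / (s g : ℝ)) ≤ c * G ^ 2 := by
      have : (c * G) ^ 2 * ∑ g, (1 / (s g : ℝ)) = c * G ^ 2 * (c * ∑ g, (1 / (s g : ℝ))) := by ring
      rw [this]
      exact mul_le_of_le_one_right (by positivity) (hS1.trans h1)
    nlinarith
  have h8 : G * (c * G - m) ^ m ≤ ∑ g, x g ^ m := by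
    obtain ⟨n, rfl⟩ : ∃ n, m = n + 1 := ⟨m - 1, by omega⟩
    have h9 := pow_sum_div_card_le_sum_pow (s := (univ : Finset (Fin G))) (f := x)
      (fun g _ => by positivity) n
    rw [card_univ, Fintype.card_fin] at h9
    refine le_trans ?_ h9
    rw [le_div_iff₀ (by positivity)]
    calc (G : ℝ) * (c * G - (n + 1 : ℕ)) ^ (n + 1) * G ^ n = (G * (c * G - (n + 1 : ℕ))) ^ (n + 1) := by
          rw [mul_pow]; ring
      _ ≤ _ := pow_le_pow_left₀ (mul_nonneg hG.le (by linarith)) h2 _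
  have h10 : ∀ g, x g ^ m / m.factorial ≤ ((P.filter fun T => g ∈ T).card : ℝ) := fun g => by
    obtain ⟨S', hS', he⟩ := exists_mem_eq_sup (C g) ⟨_, hne g⟩ card
    obtain ⟨-, hg, hcl⟩ := mem_filter.1 hS'
    have h11 := card_filter_powersetCard_subset {g} S' (m + 1) (by simpa using hg) (by simp)
    have h12 : (S'.card - 1).choose m ≤ (P.filter fun T => g ∈ T).card := by
      rw [card_singleton, Nat.add_sub_cancel] at h11
      rw [← h11]
      refine card_le_card fun T hT => ?_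
      obtain ⟨hT1, hT2⟩ := mem_filter.1 hT
      exact mem_filter.2 ⟨hcl T (mem_powersetCard.1 hT1).1 (mem_powersetCard.1 hT1).2,
        by simpa using hT2⟩
    have h13 := Nat.pow_le_choose (α := ℝ) m (S'.card - 1)
    have h14 : S'.card - 1 + 1 - m = s g - m := by
      have := (hs1 g).1
      have : s g = S'.card := he
      omega
    rw [h14] at h13
    exact h13.trans (by exact_mod_cast h12)
  have h15 : ∑ g, ((P.filter fun T => g ∈ T).card : ℝ) = (m + 1) * P.card := by
    simp only [card_filter, Nat.cast_sum]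
    rw [sum_comm, mul_comm, ← nsmul_eq_mul, ← sum_const]
    refine sum_congr rfl fun T hT => ?_
    rw [← Nat.cast_sum, ← card_filter, filter_mem_eq_inter, univ_inter, hP T hT]; simp
  have h16 := sum_le_sum fun g (_ : g ∈ (univ : Finset (Fin G))) => h10 g
  rw [h15, ← sum_div, div_le_iff₀ (by positivity)] at h16
  rcases le_total (c ^ m - ε) 0 with h0 | h0
  · exact (mul_nonpos_of_nonpos_of_nonneg h0 (by positivity)).trans (by positivity)
  have h17 : (G.choose (m + 1) : ℝ) ≤ (G : ℝ) ^ (m + 1) / (m + 1).factorial :=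
    Nat.choose_le_pow_div _ _
  refine (mul_le_mul_of_nonneg_left h17 h0).trans ?_
  rw [← mul_div_assoc, div_le_iff₀ (by positivity), Nat.factorial_succ]
  push_cast
  calc (c ^ m - ε) * (G : ℝ) ^ (m + 1) = G * ((c ^ m - ε) * G ^ m) := by ring
    _ ≤ G * (c * G - m) ^ m := by gcongr
    _ ≤ _ := by nlinarith

/-- An enumeration of a set with `G` elements. -/
theorem exists_enum (G : ℕ) : ∃ e : Finset ℕ → Fin G → ℕ, ∀ U : Finset ℕ, U.card = G →
    Function.Injective (e U) ∧ univ.image (e U) = U :=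
  ⟨fun U => if h : U.card = G then U.orderEmbOfFin h else 0, fun U h => by
    simp only [h, dite_true]
    exact ⟨(U.orderEmbOfFin h).injective, image_orderEmbOfFin_univ U h⟩⟩

theorem share_dc (H : Finset ℕ) (good : Finset ℕ → Prop) {G r : ℕ} (hr : r ≤ G) :
    ∑ U ∈ powersetCard G H, (((powersetCard r U).filter good).card : ℝ) =
      ((powersetCard r H).filter good).card * ((H.card - r).choose (G - r) : ℝ) := by
  have h1 : ∀ U ∈ powersetCard G H, (((powersetCard r U).filter good).card : ℝ) =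
      ∑ W ∈ (powersetCard r H).filter good, if W ⊆ U then (1 : ℝ) else 0 := fun U hU => by
    rw [sum_boole]
    congr 2
    ext W
    simp only [mem_filter, mem_powersetCard]
    exact ⟨fun h => ⟨⟨⟨h.1.1.trans (mem_powersetCard.1 hU).1, h.1.2⟩, h.2⟩, h.1.1⟩,
      fun h => ⟨⟨h.2, h.1.1.2⟩, h.1.2⟩⟩
  rw [sum_congr rfl h1, sum_comm, ← nsmul_eq_mul, ← sum_const]
  refine sum_congr rfl fun W hW => ?_
  obtain ⟨h2, h3⟩ := mem_powersetCard.1 (mem_filter.1 hW).1
  rw [sum_boole, card_filter_powersetCard_subset W H G h2 (h3 ▸ hr), h3]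

theorem share {c ε : ℝ} (hc : 0 < c) (hc1 : c ≤ 1) (hε : 0 < ε) {m : ℕ} (hm : 1 ≤ m) :
    ∃ G : ℕ, 0 < G ∧ ∀ t : ℕ, 1 ≤ t → ∃ K0 : ℕ, ∀ H : Finset ℕ, K0 ≤ H.card →
      ∀ good : Finset ℕ → Prop,
      (∀ B : Fin G → Finset ℕ, (∀ g, B g ⊆ H ∧ (B g).card = t) →
        (∀ g g', g ≠ g' → Disjoint (B g) (B g')) → ∀ s : Fin G → ℕ, (∀ g, 1 ≤ s g ∧ s g ≤ G) →
        ∃ (S : Finset (Fin G)) (b : Fin G → ℕ), (∀ g, b g ∈ B g) ∧
          c * ∑ g, (1 / (s g : ℝ)) ≤ ∑ g ∈ S, (1 / (s g : ℝ)) ∧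
          ∀ T ⊆ S, T.card = m + 1 → good (T.image b)) →
      (c ^ m - ε) * (H.card.choose (m + 1) : ℝ) ≤ ((powersetCard (m + 1) H).filter good).card := by
  obtain ⟨G, hG, hGm⟩ := ((clique hc (half_pos hε) hm).and (eventually_ge_atTop (m + 1))).exists
  refine ⟨G, by omega, fun t ht => ?_⟩
  obtain ⟨e, he⟩ := exists_enum G
  set N : ℝ := (Fintype.card (Finset (Finset (Fin G))) : ℝ) with hN
  have hN0 : 0 < N := by rw [hN]; exact_mod_cast Fintype.card_pos
  set η : ℝ := ε / 2 * ((1 / 2) ^ G / G.factorial) / N with hη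
  obtain ⟨K1, hK1⟩ := box G t (η := η) (by positivity)
  refine ⟨K1 + 2 * G, fun H hH good hyp => ?_⟩
  rcases le_total (c ^ m - ε) 0 with h0 | h0
  · exact (mul_nonpos_of_nonpos_of_nonneg h0 (by positivity)).trans (by positivity)
  set K := H.card with hK
  set pat : (Fin G → ℕ) → Finset (Finset (Fin G)) := fun u =>
    univ.filter fun T => T.card = m + 1 ∧ good (T.image u) with hpat
  set δ : ℝ := (c ^ m - ε / 2) * (G.choose (m + 1) : ℝ) with hδ
  have hδ0 : 0 ≤ δ := mul_nonneg (by linarith) (by positivity)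
  set V := powersetCard G H with hV
  have hrare : ∀ P : Finset (Finset (Fin G)), (P.card : ℝ) < δ →
      ((V.filter fun U => pat (e U) = P).card : ℝ) ≤ η * (K : ℝ) ^ G := fun P hP => by
    by_contra hcon
    have hinj : Set.InjOn e (V.filter fun U => pat (e U) = P) := fun U hU U' hU' h => by
      rw [← (he U (mem_powersetCard.1 (mem_filter.1 hU).1).2).2, h,
        (he U' (mem_powersetCard.1 (mem_filter.1 hU').1).2).2]
    obtain ⟨B, hB, hBE⟩ := hK1 H (by omega) ((V.filter fun U => pat (e U) = P).image e)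
      (fun u hu => by
        obtain ⟨U, hU, rfl⟩ := mem_image.1 hu
        obtain ⟨h1, h2⟩ := mem_powersetCard.1 (mem_filter.1 hU).1
        exact Fintype.mem_piFinset.2 fun g => h1 ((he U h2).2.le (mem_image_of_mem _ (mem_univ g))))
      (by rw [card_image_of_injOn hinj]; exact (not_le.1 hcon).le)
    have hu : ∀ u : Fin G → ℕ, (∀ g, u g ∈ B g) → Function.Injective u ∧ pat u = P := fun u hu => by
      obtain ⟨U, hU, rfl⟩ := mem_image.1 (hBE (Fintype.mem_piFinset.2 hu))
      exact ⟨(he U (mem_powersetCard.1 (mem_filter.1 hU).1).2).1, (mem_filter.1 hU).2⟩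
    have hne : ∀ g, (B g).Nonempty := fun g => card_pos.1 (by rw [(hB g).2]; omega)
    choose u0 hu0 using hne
    have hdis : ∀ g g', g ≠ g' → Disjoint (B g) (B g') := fun g g' hg => by
      refine disjoint_left.2 fun a ha ha' => hg ?_
      refine (hu (fun i => if i = g ∨ i = g' then a else u0 i) fun i => ?_).1 (by simp)
      split_ifs with hi
      · rcases hi with rfl | rfl <;> assumption
      · exact hu0 i
    refine absurd (hG P (fun T hT => ?_) fun s hs => ?_) (not_le.2 hP)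
    · rw [← (hu u0 hu0).2] at hT
      exact (mem_filter.1 hT).2.1
    · obtain ⟨S, b, hb, h1, h2⟩ := hyp B hB hdis s hs
      exact ⟨S, h1, fun T hT h => (hu b hb).2 ▸ mem_filter.2 ⟨mem_univ _, h, h2 T hT h⟩⟩
  have hVc : (V.card : ℝ) = K.choose G := by rw [hV, card_powersetCard]
  have hbad : ((V.filter fun U => ((pat (e U)).card : ℝ) < δ).card : ℝ) ≤ ε / 2 * V.card := by
    rw [card_eq_sum_card_fiberwise (f := fun U => pat (e U)) (t := univ) fun _ _ => mem_univ _]
    push_cast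
    have h1 : ∀ P ∈ (univ : Finset (Finset (Finset (Fin G)))),
        (((V.filter fun U => ((pat (e U)).card : ℝ) < δ).filter fun U => pat (e U) = P).card : ℝ) ≤
          η * (K : ℝ) ^ G := fun P _ => by
      by_cases hP : (P.card : ℝ) < δ
      · refine le_trans ?_ (hrare P hP)
        exact_mod_cast card_le_card (filter_subset_filter _ (filter_subset _ _))
      · rw [filter_false_of_mem fun U hU (h : pat (e U) = P) => hP (h ▸ (mem_filter.1 hU).2)]
        simp only [card_empty, Nat.cast_zero]; positivity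
    refine (sum_le_sum h1).trans ?_
    rw [sum_const, card_univ, nsmul_eq_mul, ← hN, hVc]
    have h2 : (((K + 1 - G : ℕ) : ℝ)) ^ G / G.factorial ≤ K.choose G := by
      simpa using Nat.pow_le_choose (α := ℝ) G K
    have h3 : 1 / 2 * (K : ℝ) ≤ ((K + 1 - G : ℕ) : ℝ) := by
      have : K ≤ 2 * (K + 1 - G) := by omega
      have : (K : ℝ) ≤ 2 * ((K + 1 - G : ℕ) : ℝ) := by exact_mod_cast this
      linarith
    calc N * (η * (K : ℝ) ^ G) = ε / 2 * ((1 / 2 * (K : ℝ)) ^ G / G.factorial) := by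
          rw [hη, mul_pow]; field_simp
      _ ≤ _ := by gcongr; exact le_trans (by gcongr) h2
  have hsum : δ * ((1 - ε / 2) * V.card) ≤
      ∑ U ∈ V, (((powersetCard (m + 1) U).filter good).card : ℝ) := by
    have h1 : ∀ U ∈ V, δ - (if ((pat (e U)).card : ℝ) < δ then δ else 0) ≤
        (((powersetCard (m + 1) U).filter good).card : ℝ) := fun U hU => by
      split_ifs with h
      · simp
      obtain ⟨h2, h3⟩ := he U (mem_powersetCard.1 hU).2
      rw [sub_zero]
      refine (not_lt.1 h).trans ?_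
      norm_cast
      refine card_le_card_of_injOn (fun T => T.image (e U)) (fun T hT => ?_)
        (image_injective h2).injOn
      obtain ⟨-, h4, h5⟩ := mem_filter.1 hT
      refine mem_filter.2 ⟨mem_powersetCard.2 ⟨?_, by rw [card_image_of_injective _ h2, h4]⟩, h5⟩
      exact (image_subset_image (subset_univ T)).trans h3.le
    refine le_trans ?_ (sum_le_sum h1)
    rw [sum_sub_distrib, ← sum_filter, sum_const, sum_const, nsmul_eq_mul, nsmul_eq_mul]
    nlinarith
  rw [share_dc H good hGm, hVc] at hsum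
  have hcm : (K.choose G : ℝ) * G.choose (m + 1) =
      K.choose (m + 1) * ((K - (m + 1)).choose (G - (m + 1)) : ℝ) := by
    exact_mod_cast Nat.choose_mul hGm
  have hp : (0 : ℝ) < (K - (m + 1)).choose (G - (m + 1)) := by
    exact_mod_cast Nat.choose_pos (by omega)
  refine le_of_mul_le_mul_right (le_trans ?_ hsum) hp
  have h1 : c ^ m - ε ≤ (c ^ m - ε / 2) * (1 - ε / 2) := by
    nlinarith [pow_le_one₀ hc.le hc1 (n := m)]
  calc (c ^ m - ε) * (K.choose (m + 1) : ℝ) * ((K - (m + 1)).choose (G - (m + 1)) : ℝ)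
      = (c ^ m - ε) * ((K.choose G : ℝ) * G.choose (m + 1)) := by rw [hcm]; ring
    _ ≤ (c ^ m - ε / 2) * (1 - ε / 2) * ((K.choose G : ℝ) * G.choose (m + 1)) := by gcongr
    _ = _ := by rw [hδ]; ring

end Pool.Agent.Lib.MP_c03ca8_nt.D
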