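import Pool.Agent.Lib.MP_c03ca8_nt.D.CoreP
import Pool.Agent.Lib.MP_c03ca8_nt.D.FifP
import Pool.Agent.Lib.MP_c03ca8_nt.D.Share

set_option autoImplicit false

noncomputable section

namespace Pool.Agent.Lib.MP_c03ca8_nt.D

open Finset Filter Topology
open scoped Classical

/-! Assembly. -/

/-- The `n ≤ N` whose interval holds a translate of `T` that consists of primes. -/
def hit (T : Finset ℕ) (N : ℕ) : Finset ℕ :=
  (Icc 1 N).filter fun n => ∃ u : ℕ, n ^ 5 < u ∧ ∀ b ∈ T, (u + b).Prime ∧ u + b < (n + 1) ^ 5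

theorem last_c0 (m : ℕ) {ε : ℝ} (hε : 0 < ε) :
    ∃ c : ℝ, 0 < c ∧ c < 1 / 4 ∧ (1 / 4 : ℝ) ^ m - ε < c ^ m := by
  have h1 : ∀ᶠ c : ℝ in 𝓝 (1 / 4), 0 < c ∧ (1 / 4 : ℝ) ^ m - ε < c ^ m :=
    (lt_mem_nhds (by norm_num)).and
      ((continuous_pow m).continuousAt.eventually (lt_mem_nhds (sub_lt_self _ hε)))
  obtain ⟨c, h2, h3⟩ := ((h1.filter_mono nhdsWithin_le_nhds).and
    (self_mem_nhdsWithin (s := Set.Iio (1 / 4 : ℝ)))).exists
  exact ⟨c, h2.1, h3, h2.2⟩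

/-- For every system of groups many intervals hold primes from a heavy set of groups. -/
theorem last_box {c0 : ℝ} (hc0 : 0 < c0) (hc : c0 < 1 / 4) (G : ℕ) (hG : 1 ≤ G) : ∃ τ : ℕ, 1 ≤ τ ∧
    ∀ H : Finset ℕ, (∀ p : ℕ, p.Prime → ∃ a : ℕ, ∀ b ∈ H, ¬ p ∣ a + b) →
      ∀ (B : Fin G → Finset ℕ) (s : Fin G → ℕ), ∀ᶠ c : ℝ in 𝓝[>] 0, ∀ᶠ N : ℕ in atTop,
        (∀ g, B g ⊆ H ∧ (B g).card = τ) → (∀ g g', g ≠ g' → Disjoint (B g) (B g')) →
        (∀ g, 1 ≤ s g ∧ s g ≤ G) → c * N ≤ ((Icc 1 N).filter fun n => ∃ (u : ℕ) (S : Finset (Fin G))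
          (b : Fin G → ℕ), n ^ 5 < u ∧ (∀ g, b g ∈ B g) ∧
          c0 * ∑ g, (1 / (s g : ℝ)) ≤ ∑ g ∈ S, (1 / (s g : ℝ)) ∧
          ∀ g ∈ S, (u + b g).Prime ∧ u + b g < (n + 1) ^ 5).card := by
  obtain ⟨τ, hτ, hm⟩ := many_grp hc0 hc G hG
  obtain ⟨e, he⟩ := exists_enum τ
  refine ⟨τ, hτ, fun H adm B s => ?_⟩
  by_cases hyp : (∀ g, B g ⊆ H ∧ (B g).card = τ) ∧ (∀ g g', g ≠ g' → Disjoint (B g) (B g')) ∧
      ∀ g, 1 ≤ s g ∧ s g ≤ G
  swap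
  · exact .of_forall fun _ => .of_forall fun _ h1 h2 h3 => absurd ⟨h1, h2, h3⟩ hyp
  obtain ⟨hB, hd, hs⟩ := hyp
  have hmem : ∀ g i, e (B g) i ∈ B g := fun g i =>
    (he _ (hB g).2).2.le (mem_image_of_mem _ (mem_univ i))
  have hinj : Function.Injective fun l : Fin G × Fin τ => e (B l.1) l.2 := by
    rintro ⟨g, i⟩ ⟨g', i'⟩ h
    obtain rfl : g = g' := by
      by_contra hg
      exact disjoint_left.1 (hd g g' hg) (hmem g i) ((show e (B g) i = e (B g') i' from h) ▸ hmem g' i')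
    exact Prod.ext rfl ((he _ (hB g).2).1 h)
  obtain ⟨c1, hc1, N0, hN⟩ := fifthP hinj (hm _ hinj (fun p hp => (adm p hp).imp fun a ha l =>
    ha _ ((hB l.1).1 (hmem l.1 l.2))) (fun g => 1 / (s g : ℝ)) fun g => by
      have : (0 : ℝ) < s g := by exact_mod_cast (hs g).1
      positivity)
  filter_upwards [Ioo_mem_nhdsGT hc1] with c hc
  filter_upwards [eventually_ge_atTop N0] with N hN0 _ _ _
  refine (mul_le_mul_of_nonneg_right hc.2.le (Nat.cast_nonneg N)).trans ((hN N hN0).trans ?_)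
  refine Nat.cast_le.2 (card_le_card fun n hn => ?_)
  obtain ⟨h1, u, h2, h3, h4⟩ := mem_filter.1 hn
  have h5 : ∀ g, ∃ i : Fin τ, (∃ j, (u + e (B g) j).Prime) → (u + e (B g) i).Prime := fun g => by
    by_cases h : ∃ j, (u + e (B g) j).Prime
    · exact h.imp fun _ hj _ => hj
    · exact ⟨⟨0, hτ⟩, fun h' => absurd h' h⟩
  choose i hi using h5
  refine mem_filter.2 ⟨h1, u, _, fun g => e (B g) (i g), h2, fun g => hmem g _, h4, fun g hg => ?_⟩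
  obtain ⟨l, hl, rfl⟩ := mem_image.1 hg
  exact ⟨hi _ ⟨l.2, (mem_filter.1 hl).2⟩, h3 (l.1, i l.1)⟩

theorem dickson_share {m : ℕ} (hm : 1 ≤ m) {ε : ℝ} (hε : 0 < ε) : ∃ K0 : ℕ, ∀ H : Finset ℕ,
    K0 ≤ H.card → (∀ p : ℕ, p.Prime → ∃ a : ℕ, ∀ b ∈ H, ¬ p ∣ a + b) →
      ∃ c : ℝ, 0 < c ∧ ∃ N0 : ℕ, ∀ N : ℕ, N0 ≤ N →
        ((1 / 4 : ℝ) ^ m - ε) * (H.card.choose (m + 1) : ℝ) ≤
          ((powersetCard (m + 1) H).filter fun T => c * N ≤ ((hit T N).card : ℝ)).card := by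
  obtain ⟨c0, hc0, hc, hcm⟩ := last_c0 m (half_pos hε)
  obtain ⟨G, hG, hsh⟩ := share hc0 (by linarith) (half_pos hε) hm
  obtain ⟨τ, hτ, hb⟩ := last_box hc0 hc G hG
  obtain ⟨K0, hK⟩ := hsh τ hτ
  refine ⟨K0, fun H hH adm => ?_⟩
  have h1 := (eventually_all_finset (Fintype.piFinset (fun _ : Fin G => H.powerset) ×ˢ
    Fintype.piFinset fun _ : Fin G => Icc 1 G)).2 fun x _ => hb H adm x.1 x.2
  obtain ⟨c1, h2, hc1⟩ := (h1.and self_mem_nhdsWithin).exists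
  obtain ⟨N0, hN⟩ := eventually_atTop.1 ((eventually_all_finset _).2 h2)
  have hc1' : (0 : ℝ) < c1 := hc1
  set C : ℝ := ((powersetCard (m + 1) H).card : ℝ) with hC
  have hC0 : 0 ≤ C := Nat.cast_nonneg _
  refine ⟨c1 / (C + 1), by positivity, N0 + 1, fun N hN0 => ?_⟩
  refine le_trans (mul_le_mul_of_nonneg_right (by linarith) (Nat.cast_nonneg _))
    (hK H hH (fun T => c1 / (C + 1) * N ≤ ((hit T N).card : ℝ)) fun B hB hd s hs => ?_)
  have h3 := hN N (by omega) (B, s) (mem_product.2 ⟨Fintype.mem_piFinset.2 fun g =>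
    mem_powerset.2 (hB g).1, Fintype.mem_piFinset.2 fun g => mem_Icc.2 (hs g)⟩) hB hd hs
  set Bad := (powersetCard (m + 1) H).filter fun T => ¬ c1 / (C + 1) * N ≤ ((hit T N).card : ℝ)
  have hN1 : (0 : ℝ) < N := by exact_mod_cast (by omega : 0 < N)
  have h4 : ((Bad.biUnion fun T => hit T N).card : ℝ) < c1 * N := by
    calc ((Bad.biUnion fun T => hit T N).card : ℝ) ≤ ∑ T ∈ Bad, ((hit T N).card : ℝ) := by
          exact_mod_cast card_biUnion_le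
      _ ≤ ∑ _T ∈ Bad, c1 / (C + 1) * N := sum_le_sum fun T hT => (not_le.1 (mem_filter.1 hT).2).le
      _ ≤ C * (c1 / (C + 1) * N) := by
          rw [sum_const, nsmul_eq_mul]
          exact mul_le_mul_of_nonneg_right (Nat.cast_le.2 (card_filter_le _ _)) (by positivity)
      _ < (C + 1) * (c1 / (C + 1) * N) := mul_lt_mul_of_pos_right (lt_add_one C) (by positivity)
      _ = _ := by field_simp
  obtain ⟨n, hn, hnb⟩ := exists_mem_notMem_of_card_lt_card (Nat.cast_lt.1 (h4.trans_le h3))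
  obtain ⟨h5, u, S, b, h6, h7, h8, h9⟩ := mem_filter.1 hn
  refine ⟨S, b, h7, h8, fun T hT hTc => ?_⟩
  by_contra hcon
  have hbi : Function.Injective b := fun g g' h => by
    by_contra hg
    exact disjoint_left.1 (hd g g' hg) (h7 g) (h ▸ h7 g')
  refine hnb (mem_biUnion.2 ⟨T.image b, mem_filter.2 ⟨mem_powersetCard.2
    ⟨image_subset_iff.2 fun g _ => (hB g).1 (h7 g), by rw [card_image_of_injective _ hbi, hTc]⟩,
    hcon⟩, mem_filter.2 ⟨h5, u, h6, fun x hx => ?_⟩⟩)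
  obtain ⟨g, hg, rfl⟩ := mem_image.1 hx
  exact h9 g (hT hg)

end Pool.Agent.Lib.MP_c03ca8_nt.D
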