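import Pool.Agent.Lib.MP_c03ca8_nt.D.Pair
import Pool.Agent.Lib.MP_c03ca8_nt.D.Dom
import Pool.Agent.Lib.MP_c03ca8_nt.D.Cnt
import Pool.Agent.Lib.MP_c03ca8_nt.H.MainC

set_option autoImplicit false

noncomputable section

namespace Pool.Agent.Lib.MP_c03ca8_nt.D

open Finset Filter Q H
open P3 (Rough om xi Xi bxB bil Adm)
open scoped Classical

/-! One interval. Model: `H/MainC.lean` (`main_cnt`). -/

variable {ι : Type} [Fintype ι] [DecidableEq ι] {Γ : Type} [Fintype Γ] [DecidableEq Γ]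

/-- One form. -/
theorem mainp_one {σ ρ τ D π u v E P1 P2 : ℝ} (hσ0 : 0 ≤ σ) (hσ : σ ≤ 2) (hρ0 : 0 ≤ ρ) (hρ : ρ ≤ 1)
    (hτ : 0 ≤ τ) (hE : 0 ≤ E) (h1 : π * (D * u) - E ≤ P1) (h2 : P2 ≤ τ * (π * (D * v) + E)) :
    D * ((σ * u - ρ * τ * v) * π) - (2 + τ) * E ≤ σ * P1 - ρ * P2 := by
  have a1 := mul_le_mul_of_nonneg_left h1 hσ0
  have a2 := mul_le_mul_of_nonneg_left h2 hρ0
  have a3 := mul_le_mul_of_nonneg_right hσ hE
  have a4 := mul_le_mul_of_nonneg_right hρ (mul_nonneg hτ hE)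
  linarith

theorem mainp_sum {grp : ι → Γ} {τ : ℕ} (hτ : ∀ g, (univ.filter fun i => grp i = g).card = τ)
    (lam : Γ → ℝ) : ∑ i, lam (grp i) = τ * ∑ g, lam g := by
  rw [← sum_fiberwise univ grp, mul_sum]
  refine sum_congr rfl fun g _ => ?_
  rw [sum_congr rfl (g := fun _ => lam g) fun i hi => by rw [(mem_filter.1 hi).2], sum_const, hτ,
    nsmul_eq_mul]

/-- As `main_cnt`, with `cnt_grp` in place of `cnt_pt`. `S = X / W * L ^ k`, `Λ = ∑ lam`, `π i = card prm`.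
`∑ prm ≥ π i (θ L) ^ (k + 1) (J - t) - t S` (`s2_lower`, `cell_main`),
`∑ prm2 ≤ π i (θ L) ^ (k + 2) B / ((b - t) L) + t S` (`pair_upper` with `ε = t`, `dom_ev`), at most `τ` values of
`j`, `∑ i, lam (grp i) = τ Λ` (`Finset.sum_fiberwise`), `0 ≤ 2 / s - 1 / s ^ 2 ≤ 2`, `1 / s ^ 2 ≤ 1`. So
`(θ L) ^ (k + 1) ∑ lam (grp i) kz π i ≤ Λ S (c0 (θ ^ k (I + t) + t) + (2 τ + τ ^ 2) t + k ε) + Λ C0 L ^ (2 k) card`
with `k ε` below the gap in `hn` (`tiny`, `aw_rough`, `asy_all`). -/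
theorem main_grp {grp : ι → Γ} {τ : ℕ} (hτ : ∀ g, (univ.filter fun i => grp i = g).card = τ)
    {lam : Γ → ℝ} (hlam : ∀ g, 0 ≤ lam g) {M : ℕ} {α : ℕ → ℝ} {F : (ι → ℕ) → ℝ} {g : ℕ → ℝ} {κ : ℝ}
    (hD : Dom M α F g κ) {θ b s t c0 I J A : ℝ} (hk : 1 ≤ Fintype.card ι) (hθ0 : 0 < θ) (ht : 0 < t)
    (htb : t < b) (hθ : θ + b < 1 / 4) (hs : 1 ≤ s) (hc0 : 0 ≤ c0) (hI : Iv M F (len α) ≤ I)
    (hJ : ∀ i, J ≤ Jv M F (len α) i)
    (hn : c0 * (θ ^ Fintype.card ι * (I + t) + t) + (2 * τ + τ ^ 2) * t <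
      θ ^ (Fintype.card ι + 1) * A) : ∃ η C : ℝ, 0 < η ∧ 0 < C ∧ ∀ (h : ι → ℕ) (γ : ℝ),
    Function.Injective h → 0 < γ → Evn h γ fun w x a X =>
      ∑ i, lam (grp i) * kz (Fintype.card ι) τ θ b s t J κ (m1 M g (len α)) (m2 M g (len α)) *
          (prm (Iw w x a X) (h i)).card ≤
        (∑ g, lam g) * A * (X / (Nat.totient (primorial w) * Real.log x)) +
          C * Real.log x ^ (Fintype.card ι - 1) *
            (gdP h (Hv grp lam c0) ((x : ℝ) ^ η) (Iw w x a X)).card := by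
  have hF := hD.stp
  obtain ⟨g0, hg⟩ : ∃ g0, g0 = θ ^ (Fintype.card ι + 1) * A -
      (c0 * (θ ^ Fintype.card ι * (I + t) + t) + (2 * τ + τ ^ 2) * t) := ⟨_, rfl⟩
  have hg0 : 0 < g0 := by linarith
  have hk0 : (0 : ℝ) < Fintype.card ι := by exact_mod_cast hk
  have hε : 0 < g0 / Fintype.card ι := by positivity
  have hεg : (Fintype.card ι : ℝ) * (g0 / Fintype.card ι) = g0 := mul_div_cancel₀ _ hk0.ne'
  obtain ⟨η, hη, -, H1⟩ := tiny ι M hε
  generalize g0 / Fintype.card ι = ε at hε hεg H1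
  obtain ⟨C0, hC0, H2⟩ := aw_rough ι hη
  have hθk : 0 < θ ^ (Fintype.card ι + 1) := pow_pos hθ0 _
  have hΛ : 0 ≤ ∑ g, lam g := sum_nonneg fun g _ => hlam g
  have hbt : 0 < b - t := sub_pos.2 htb
  have hθ4 : θ < 1 / 4 := by linarith
  have hs0 : 0 < s := by linarith
  have hρ : 1 / s ^ 2 ≤ 1 := by
    rw [div_le_one (by positivity)]
    exact one_le_pow₀ hs
  have hρ0 : 0 ≤ 1 / s ^ 2 := by positivity
  have hσ : 2 / s - 1 / s ^ 2 ≤ 2 := by
    have : 2 / s ≤ 2 := div_le_self (by norm_num) hs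
    linarith
  have hσ0 : 0 ≤ 2 / s - 1 / s ^ 2 := by
    rw [sub_nonneg, div_le_div_iff₀ (by positivity) hs0]
    nlinarith
  have hq : 0 ≤ m2 M g (len α) :=
    sum_nonneg fun c _ => mul_nonneg (sq_nonneg _) (sub_nonneg.2 (hF.mono (Nat.le_succ c)))
  have hB : 0 ≤ κ ^ 2 * (m1 M g (len α) + t) ^ 4 * (m2 M g (len α) + t) ^ (Fintype.card ι - 2) := by
    positivity
  refine ⟨η, (∑ g, lam g) * C0 / θ ^ (Fintype.card ι + 1) + 1, hη, by positivity,
    fun h γ hinj hγ => ?_⟩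
  have hx2 : Evn h γ fun _ x _ _ => 2 ≤ x :=
    evn_x (p := fun _ x => 2 ≤ x) (Eventually.of_forall fun _ => eventually_ge_atTop 2)
  refine ((((((((asy_all hinj hγ ht).and (s2_lower hinj hγ hθ0.le hθ4 ht)).and
    (evn_x (cell_main hF hθ0 (by linarith) ht))).and hx2).and
    (H1 h γ θ α F hinj hγ hθ0.le hθ4.le hF)).and (H2 h γ hinj)).and
    (pair_upper hinj hγ hθ0.le ht htb hθ ht)).and
    (evn_x (dom_ev hD hθ0 (by linarith) ht))).mono ?_
  rintro w x a X - hX - ⟨⟨⟨⟨⟨⟨⟨h1, h2⟩, h3, h4⟩, h5⟩, h6⟩, h7⟩, h8⟩, h9⟩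
  have hx : (2 : ℝ) ≤ x := by exact_mod_cast h5
  have hx1 : (1 : ℝ) ≤ x := by linarith
  have hlog : 0 < Real.log x := Real.log_pos (by linarith)
  have hL : 0 < LL w x := mul_pos (cW_pos w) hlog
  have hLl := ev_LL_le w (x := x) (by omega)
  have hW : (0 : ℝ) < primorial w := by exact_mod_cast primorial_pos w
  have hX0 : (0 : ℝ) < X := lt_of_lt_of_le (mul_pos hγ (by linarith)) hX
  have hR : 1 ≤ (x : ℝ) ^ θ := Real.one_le_rpow hx1 hθ0.le
  have hlev := lev_zc hF hR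
  have hZ := abs_zc_le hF ((x : ℝ) ^ θ)
  have u1 := (abs_le.1 (h1 _ univ (bd_univ hZ)
    (hlev.mono (Real.rpow_le_rpow_of_exponent_le hx1 (by linarith))))).2
  rw [card_univ] at u1
  rw [← W_LL]
  have l1 := fun i => h2 i _ hZ hlev
  have r1 := h7 _ hZ
  have p1 := fun i j hij => h8 i j _ hij hZ hlev
  unfold kz
  generalize Zc M F ((x : ℝ) ^ θ) α = Z at u1 l1 h3 h4 h6 r1 p1 h9
  generalize κ ^ 2 * (m1 M g (len α) + t) ^ 4 * (m2 M g (len α) + t) ^ (Fintype.card ι - 2) = B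
    at hB h9
  have hS : 0 < X / primorial w * LL w x ^ Fintype.card ι := by positivity
  have hDp : 0 < (θ * LL w x) ^ (Fintype.card ι + 1) := pow_pos (mul_pos hθ0 hL) _
  have u2 : ∑ n ∈ Iw w x a X, Aw (Ps w x) h Z n ^ 2 ≤ X / primorial w * LL w x ^ Fintype.card ι *
      (θ ^ Fintype.card ι * (I + t) + t) := by
    have h0 := h3.trans (mul_le_mul_of_nonneg_left (add_le_add_left hI t) (by positivity))
    have := mul_le_mul_of_nonneg_left h0 (div_pos hX0 hW).le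
    rw [mul_pow] at this
    linarith
  have l2 : ∀ i, (prm (Iw w x a X) (h i)).card * ((θ * LL w x) ^ (Fintype.card ι + 1) * (J - t)) -
      t * (X / primorial w * LL w x ^ Fintype.card ι) ≤
      ∑ n ∈ prm (Iw w x a X) (h i), Aw (Ps w x) h Z n ^ 2 := fun i => by
    refine le_trans (sub_le_sub_right (mul_le_mul_of_nonneg_left (le_trans ?_ (h4 i))
      (Nat.cast_nonneg _)) _) (l1 i)
    exact mul_le_mul_of_nonneg_left ((sub_le_sub_right (hJ i) t).trans (le_max_left _ _)) hDp.le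
  have l3 : ∀ i, ∑ j ∈ univ.filter (fun j => grp j = grp i ∧ j ≠ i),
      ∑ n ∈ prm2 (Iw w x a X) (h i) (h j), Aw (Ps w x) h Z n ^ 2 ≤
      τ * ((prm (Iw w x a X) (h i)).card * ((θ * LL w x) ^ (Fintype.card ι + 1) * (θ * B / (b - t))) +
        t * (X / primorial w * LL w x ^ Fintype.card ι)) := fun i => by
    refine (sum_le_card_nsmul _ _ ((prm (Iw w x a X) (h i)).card *
      ((θ * LL w x) ^ (Fintype.card ι + 1) * (θ * B / (b - t))) +
        t * (X / primorial w * LL w x ^ Fintype.card ι)) fun j hj => ?_).trans ?_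
    · have hij := (mem_filter.1 hj).2.2.symm
      refine (p1 i j hij).trans (add_le_add_left (mul_le_mul_of_nonneg_left ?_
        (Nat.cast_nonneg _)) _)
      refine (div_le_div_of_nonneg_right (h9 i j hij) (by positivity)).trans (le_of_eq ?_)
      rw [pow_succ _ (Fintype.card ι + 1)]
      field_simp
    · rw [nsmul_eq_mul]
      refine mul_le_mul_of_nonneg_right ?_ (by positivity)
      rw [← hτ (grp i)]
      refine Nat.cast_le.2 (card_le_card fun j hj => ?_)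
      exact mem_filter.2 ⟨mem_univ _, (mem_filter.1 hj).2.1⟩
  have l4 := sum_le_sum fun i (_ : i ∈ univ) => mul_le_mul_of_nonneg_left
    (mainp_one hσ0 hσ hρ0 hρ (Nat.cast_nonneg τ) (by positivity) (l2 i) (l3 i)) (hlam (grp i))
  have c1 := cnt_grp (Iw w x a X) h grp hlam hs0 hc0 ((x : ℝ) ^ η)
    (fun n => Aw (Ps w x) h Z n ^ 2) fun _ => sq_nonneg _
  have l5 : (θ * LL w x) ^ (Fintype.card ι + 1) * ∑ i, lam (grp i) * ((2 / s - 1 / s ^ 2) * (J - t) -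
      τ * θ * B / (s ^ 2 * (b - t))) * (prm (Iw w x a X) (h i)).card -
      τ * (∑ g, lam g) * ((2 + τ) * (t * (X / primorial w * LL w x ^ Fintype.card ι))) ≤
      (∑ g, lam g) * (c0 * ∑ n ∈ Iw w x a X, Aw (Ps w x) h Z n ^ 2 +
        ∑ n ∈ gdP h (Hv grp lam c0) ((x : ℝ) ^ η) (Iw w x a X), Aw (Ps w x) h Z n ^ 2 +
        ∑ l, ∑ n ∈ (Iw w x a X).filter (fun n => ¬ Rough ((x : ℝ) ^ η) (n + h l)),
          Aw (Ps w x) h Z n ^ 2) := by
    refine le_trans (le_of_eq ?_) (l4.trans (le_trans (le_of_eq ?_) c1))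
    · rw [← mainp_sum hτ, mul_sum, sum_mul, ← sum_sub_distrib]
      refine sum_congr rfl fun i _ => ?_
      have e : τ * θ * B / (s ^ 2 * (b - t)) = 1 / s ^ 2 * τ * (θ * B / (b - t)) := by
        field_simp
      rw [e]
      ring
    · rw [mul_sum, mul_sum, ← sum_sub_distrib]
      refine sum_congr rfl fun i _ => ?_
      ring
  have u3 := mul_le_mul_of_nonneg_left u2 hc0
  have u4 : ∑ n ∈ gdP h (Hv grp lam c0) ((x : ℝ) ^ η) (Iw w x a X), Aw (Ps w x) h Z n ^ 2 ≤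
      (gdP h (Hv grp lam c0) ((x : ℝ) ^ η) (Iw w x a X)).card *
        (C0 * LL w x ^ (2 * Fintype.card ι)) := by
    rw [← nsmul_eq_mul, ← sum_const]
    exact sum_le_sum fun n hn => r1 n (mem_filter.2 ⟨(mem_filter.1 hn).1, (mem_filter.1 hn).2.1⟩)
  have u5 : ∑ l, ∑ n ∈ (Iw w x a X).filter (fun n => ¬ Rough ((x : ℝ) ^ η) (n + h l)),
      Aw (Ps w x) h Z n ^ 2 ≤
      Fintype.card ι * (ε * (X / primorial w * LL w x ^ Fintype.card ι)) := by
    rw [← card_univ (α := ι), ← nsmul_eq_mul, ← sum_const, card_univ]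
    exact sum_le_sum fun i _ => h6 i
  rw [← mul_assoc, hεg, hg] at u5
  have u9 : LL w x ^ (2 * Fintype.card ι) ≤
      LL w x ^ (Fintype.card ι + 1) * Real.log x ^ (Fintype.card ι - 1) := by
    rw [show 2 * Fintype.card ι = Fintype.card ι + 1 + (Fintype.card ι - 1) by omega,
      pow_add _ (Fintype.card ι + 1)]
    exact mul_le_mul_of_nonneg_left (pow_le_pow_left₀ hL.le hLl _) (by positivity)
  generalize gdP h (Hv grp lam c0) ((x : ℝ) ^ η) (Iw w x a X) = G at u4 l5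
  have hG0 : (0 : ℝ) ≤ G.card := Nat.cast_nonneg _
  have u10 := mul_le_mul_of_nonneg_left u9 (mul_nonneg hG0 hC0.le)
  have u6 := l5.trans (mul_le_mul_of_nonneg_left
    (add_le_add (add_le_add u3 (u4.trans ((mul_assoc _ _ _).ge.trans u10))) u5) hΛ)
  have u11 : 0 ≤ (θ * LL w x) ^ (Fintype.card ι + 1) * (Real.log x ^ (Fintype.card ι - 1) *
      G.card) := by positivity
  refine le_of_mul_le_mul_left ?_ hDp
  have e1 : (θ * LL w x) ^ (Fintype.card ι + 1) * ((∑ g, lam g) * A * (X / (primorial w * LL w x)) +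
      ((∑ g, lam g) * C0 / θ ^ (Fintype.card ι + 1) + 1) * Real.log x ^ (Fintype.card ι - 1) *
        G.card) =
      (∑ g, lam g) * (θ ^ (Fintype.card ι + 1) * A * (X / primorial w * LL w x ^ Fintype.card ι)) +
      (∑ g, lam g) * (G.card * C0 *
        (LL w x ^ (Fintype.card ι + 1) * Real.log x ^ (Fintype.card ι - 1))) +
      (θ * LL w x) ^ (Fintype.card ι + 1) * (Real.log x ^ (Fintype.card ι - 1) * G.card) := by
    rw [mul_pow, pow_succ (LL w x)]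
    field_simp
    ring
  rw [e1]
  linarith

end Pool.Agent.Lib.MP_c03ca8_nt.D
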