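import Pool.Agent.Lib.MP_c03ca8_nt.H.PL
import Pool.Agent.Lib.MP_c03ca8_nt.D.Defs

set_option autoImplicit false

noncomputable section

namespace Pool.Agent.Lib.MP_c03ca8_nt.D

open Finset Filter Q H
open P3 (Rough om xi Xi bxB bil Adm)
open scoped Classical

/-! The weight summed over primes, upper bound. Model: `H/PL.lean` (`prime_lower`). -/

variable {ι : Type} [Fintype ι] [DecidableEq ι] {h : ι → ℕ} {γ : ℝ}

/-- One form at a time. -/
theorem evn_unit {Φ : ι → ℕ → ℕ → ℕ → ℕ → Prop} (H : ∀ i, Evn (fun _ : Unit => h i) γ (Φ i)) :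
    Evn h γ fun w x a X => ∀ i, Φ i w x a X := by
  unfold Evn at H ⊢
  filter_upwards [eventually_all.2 H] with w hw
  filter_upwards [eventually_all.2 hw] with x hx a X h1 h2 h3 i
  exact hx i a X (fun _ => h1 i) h2 h3

theorem pu_sz (w x X : ℕ) : Sz Unit w x X = X / (primorial w * LL w x) := by simp [Sz]

/-- Upper bound on the rough integers: `g ^ 2 ∑ rgh Aw ^ 2 ≤ ∑ Aw (tens i z0 Z) ^ 2` (`svs_rough`, `aw_tens`),
`asy_all` with `A = univ` and `ε η ^ 2 / 4`; copy `fund_up` / `fund_low` (`k1`, `k3`, `k4`, `k5`). -/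
theorem rgh_up (hinj : Function.Injective h) (hγ : 0 < γ) {η ε : ℝ} (hη : 0 < η) (hη1 : η ≤ 1 / 64)
    (hε : 0 < ε) : Evn h γ fun w x a X => ∀ (i : ι) (Z : (ι → Finset ℕ) → ℝ), Bd Z (univ.erase i) →
      Lev Z ((x : ℝ) ^ (1 / 4 : ℝ)) →
      ∑ n ∈ rgh (Iw w x a X) ((x : ℝ) ^ η) (h i), Aw (Ps w x) h Z n ^ 2 ≤
        X / (primorial w * gg (Ps w x) ((x : ℝ) ^ η) ((x : ℝ) ^ (1 / 8 : ℝ))) * Dg (Ps w x) Z +
          ε * Sz ι w x X := by
  have hε' : 0 < ε * η ^ 2 / 4 := by positivity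
  refine (((asy_all hinj hγ hε').and (fund_ev h γ hη hη1)).and (ev_gd hinj γ one_pos 0)).mono ?_
  rintro w x a X - - - ⟨⟨h1, h2⟩, G, hG, -⟩ i Z hZ hL
  have hx := fund_x hG
  set y : ℝ := (x : ℝ) ^ η with hy
  set R0 : ℝ := (x : ℝ) ^ (1 / 8 : ℝ) with hR0
  set g : ℝ := gg (Ps w x) y R0 with hg
  have hL1 : 1 ≤ LL w x := hG.L1
  have hg0 : 0 < g := lt_of_lt_of_le (by positivity) h2
  have hW : (0 : ℝ) < primorial w := by exact_mod_cast primorial_pos w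
  have hlev : Lev (tens i (z0 y R0) Z) ((x : ℝ) ^ (7 / 16 : ℝ)) :=
    (lev_tens (fun T hT => z0_lev hT) hL).mono (fund_mul hx (by norm_num))
  have k1 := (abs_le.1 (h1 _ _
    (bd_univ fun T => (abs_tens_le (i := i) hZ.bd T).trans (abs_z0_le y R0 _)) hlev)).2
  rw [dg_tens hZ.empty, fund_gg, Finset.card_univ] at k1
  have k2 : (∑ n ∈ rgh (Iw w x a X) y (h i), Aw (Ps w x) h Z n ^ 2) * g ^ 2 ≤
      ∑ n ∈ Iw w x a X, Aw (Ps w x) h (tens i (z0 y R0) Z) n ^ 2 := by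
    rw [Finset.sum_mul]
    refine le_trans (Finset.sum_le_sum fun n hn => le_of_eq ?_)
      (Finset.sum_le_sum_of_subset_of_nonneg (Finset.filter_subset _ _) fun n _ _ => sq_nonneg _)
    rw [aw_tens hZ.empty, svs_rough hG.prime (Finset.mem_filter.1 hn).2, mul_pow, mul_comm]
  have hS : 0 ≤ Sz ι w x X := le_trans (by positivity) (le_sz ι X hL1)
  have k3 : (η / 2 * LL w x) ^ 2 ≤ g ^ 2 := pow_le_pow_left₀ (by positivity) h2 2
  have k4 : ε * η ^ 2 / 4 * (X / primorial w * LL w x ^ Fintype.card ι) ≤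
      ε * Sz ι w x X * g ^ 2 := by
    rw [← sz_mul i X hL1]
    calc ε * η ^ 2 / 4 * (Sz ι w x X * LL w x ^ 2)
        = ε * Sz ι w x X * (η / 2 * LL w x) ^ 2 := by ring
      _ ≤ _ := mul_le_mul_of_nonneg_left k3 (by positivity)
  have k5 : X / primorial w * (g * Dg (Ps w x) Z) =
      X / (primorial w * g) * Dg (Ps w x) Z * g ^ 2 := by field_simp
  refine le_of_mul_le_mul_right ?_ (pow_pos hg0 2)
  rw [add_mul]
  linarith

/-- `fund_low Unit` with `Z1 Unit` (`aw_one`, `dg_one`, `Sz Unit w x X = X / (W L)`), `evn_unit`. -/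
theorem rgh_low {ε : ℝ} (hε : 0 < ε) : ∃ η : ℝ, 0 < η ∧ η ≤ 1 / 64 ∧
    ∀ (ι : Type) [Fintype ι] [DecidableEq ι] (h : ι → ℕ) (γ : ℝ), 0 < γ → Evn h γ fun w x a X => ∀ i : ι,
      X / (primorial w * gg (Ps w x) ((x : ℝ) ^ η) ((x : ℝ) ^ (1 / 8 : ℝ))) -
        ε * (X / (primorial w * LL w x)) ≤ ((rgh (Iw w x a X) ((x : ℝ) ^ η) (h i)).card : ℝ) := by
  obtain ⟨η, h0, h1, H⟩ := fund_low Unit hε
  refine ⟨η, h0, h1, fun ι _ _ h γ hγ => evn_unit fun i => ?_⟩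
  have hinj : Function.Injective fun _ : Unit => h i := fun _ _ _ => rfl
  refine ((H _ γ hinj hγ).and (ev_gd hinj γ one_pos 0)).mono ?_
  rintro w x a X - - - ⟨k, G, hG, -⟩
  simpa [aw_one, dg_one, pu_sz] using k () (Z1 Unit) ⟨bd_one.bd, fun T hT l _ =>
    bd_one.al T hT l (Finset.notMem_empty l)⟩
    (lev_one.mono (Real.one_le_rpow (fund_x hG) (by norm_num)))

/-- `sq_small` for `Unit` with `Z1 Unit`, `evn_unit`. -/
theorem sqs_card (h : ι → ℕ) (hγ : 0 < γ) {η ε : ℝ} (hη : 0 < η) (hε : 0 < ε) :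
    Evn h γ fun w x a X => ∀ i : ι,
      ((sqs (Iw w x a X) ((x : ℝ) ^ η) (h i)).card : ℝ) ≤ ε * (X / (primorial w * LL w x)) := by
  refine evn_unit fun i => (sq_small (h := fun _ : Unit => h i) (fun _ _ _ => rfl) hγ hη hε).mono ?_
  rintro w x a X - - - k
  simpa [aw_one, pu_sz] using k () (Z1 Unit) bd_one.bd

/-- One integer: `a` is the square of the weight. -/
theorem pu_pt {p r b s a c0 c1 : ℝ} (ha : 0 ≤ a) (hc : 0 ≤ c0) (hb : 0 ≤ b) (hp : 0 ≤ p)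
    (h1 : p + b ≤ r) (h2 : r ≤ p + b + s) :
    p * a ≤ p * c0 + r * a - r * c0 - b * (a - c1) + r * |c1 - c0| + s * c0 := by
  have h3 := mul_nonneg (sub_nonneg.2 h2) hc
  have h4 := mul_nonneg (sub_nonneg.2 h1) ha
  have h5 := mul_le_mul_of_nonneg_left (neg_le_abs (c1 - c0)) hb
  have h6 := mul_nonneg (show 0 ≤ r - b by linarith) (abs_nonneg (c1 - c0))
  linarith

theorem pu_sum {I : Finset ℕ} {y c0 : ℝ} (c1 : ℝ) {k : ℕ} {a : ℕ → ℝ} (ha : ∀ n, 0 ≤ a n) (hc : 0 ≤ c0)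
    (hI : ∀ n ∈ I, 2 ≤ n + k ∧ y ≤ ((n + k : ℕ) : ℝ)) :
    ∑ n ∈ prm I k, a n ≤ (prm I k).card * c0 + ∑ n ∈ rgh I y k, a n - (rgh I y k).card * c0 -
      ∑ n ∈ I, bil y (Br y) (n + k) * (a n - c1) + (rgh I y k).card * |c1 - c0| +
      (sqs I y k).card * c0 := by
  simp only [prm, rgh, sqs, card_filter, sum_filter, Nat.cast_sum, sum_mul, ← sum_add_distrib,
    ← sum_sub_distrib]
  refine sum_le_sum fun n hn => ?_
  obtain ⟨h1, h2, h3⟩ := ram_pt (hI n hn).1 (hI n hn).2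
  have h4 := pu_pt (c1 := c1) (ha n) hc h1 (by split_ifs <;> norm_num) h2 h3
  simpa only [Nat.cast_ite, Nat.cast_one, Nat.cast_zero, ite_mul, one_mul, zero_mul] using h4

/-- Mirror of `prime_lower`. -/
theorem prime_upper (hinj : Function.Injective h) (hγ : 0 < γ) {θ ε : ℝ} (hθ0 : 0 ≤ θ)
    (hθ : θ < 1 / 4) (hε : 0 < ε) : Evn h γ fun w x a X => ∀ (i : ι) (Z : (ι → Finset ℕ) → ℝ),
      Bd Z (univ.erase i) → Lev Z ((x : ℝ) ^ θ) →
      ∑ n ∈ prm (Iw w x a X) (h i), Aw (Ps w x) h Z n ^ 2 ≤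
        (prm (Iw w x a X) (h i)).card * Dg (Ps w x) Z + ε * Sz ι w x X := by
  have hε5 : 0 < ε / 5 := by positivity
  have hC : 0 < Cm ^ Fintype.card ι := pow_pos (zero_lt_one.trans_le one_le_Cm) _
  obtain ⟨η, hη, hη1, H1⟩ := rgh_low (div_pos hε5 hC)
  have hD : 0 < 2 / η + 1 := by positivity
  have H7 : Evn h γ fun w x _ _ =>
      η / 2 * LL w x ≤ gg (Ps w x) ((x : ℝ) ^ η) ((x : ℝ) ^ (1 / 8 : ℝ)) :=
    evn_x ((eventually_ge_atTop 10).mono fun w hw => gg_ge hη (by linarith) w hw)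
  refine (((((((H1 ι h γ hγ).and (rgh_up hinj hγ hη hη1 hε5)).and
    (fund_up hinj hγ hη hη1 one_pos)).and (bt_ev hinj hγ hθ0 hθ hη hε5)).and
    (sqs_card h hγ hη (div_pos hε5 hC))).and (asy_unit hinj γ (div_pos hε5 hD))).and
    (H7.and (ev_gd hinj γ one_pos 0))).mono ?_
  rintro w x a X - - hX ⟨⟨⟨⟨⟨⟨h1, h2⟩, h3⟩, h4⟩, h5⟩, h6⟩, h7, G, hG, -⟩ i Z hZ hL
  have hx : (1 : ℝ) ≤ x := by
    have := hG.wx
    have := hG.sh.w10
    exact_mod_cast (show 1 ≤ x by omega)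
  have hL1 := hG.L1
  have hW : (0 : ℝ) < primorial w := by exact_mod_cast primorial_pos w
  have hk : (univ.erase i).card = Fintype.card ι - 1 := by
    rw [card_erase_of_mem (mem_univ i), card_univ]
  have a0 := pu_sum (I := Iw w x a X) (y := (x : ℝ) ^ η) (Md (Ps w x) vU Z) (k := h i)
    (fun n => sq_nonneg (Aw (Ps w x) h Z n)) (dg_nonneg hG.prime Z) fun n hn => by
      have b1 := (hG.mem hX hn i).1
      have b2 : (x : ℝ) ^ η ≤ (x : ℝ) ^ (1 : ℝ) :=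
        Real.rpow_le_rpow_of_exponent_le hx (by linarith)
      have b3 : 1 ≤ x := by exact_mod_cast hx
      rw [Real.rpow_one] at b2
      exact ⟨by omega, b2.trans (by exact_mod_cast b1.le)⟩
  have a1 := h2 i Z hZ (hL.mono (Real.rpow_le_rpow_of_exponent_le hx hθ.le))
  have a2 := mul_le_mul_of_nonneg_right (h1 i) (dg_nonneg hG.prime Z)
  have a3 : Dg (Ps w x) Z ≤ Cm ^ Fintype.card ι * LL w x ^ (Fintype.card ι - 1) :=
    (dg_le hG.prime hZ).trans (hk ▸ hG.mert_pow (hk ▸ Nat.sub_le _ _))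
  have a4 := (neg_le_abs _).trans (h4 i Z _ hZ hL (adm_Br _))
  have a5 := mul_le_mul_of_nonneg_right (h5 i) (dg_nonneg hG.prime Z)
  have a6 := h6 Z _ hZ
  have hu : 0 ≤ X / (primorial w * LL w x) := by positivity
  have a7 : X / (primorial w * gg (Ps w x) ((x : ℝ) ^ η) ((x : ℝ) ^ (1 / 8 : ℝ))) ≤
      2 / η * (X / (primorial w * LL w x)) := by
    refine (div_le_div_of_nonneg_left (Nat.cast_nonneg X) (by positivity)
      (mul_le_mul_of_nonneg_left h7 hW.le)).trans (le_of_eq ?_)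
    field_simp
  have a8 : ((rgh (Iw w x a X) ((x : ℝ) ^ η) (h i)).card : ℝ) ≤
      (2 / η + 1) * (X / (primorial w * LL w x)) := by linarith [h3 i]
  have a9 := mul_le_mul a8 a6 (abs_nonneg _) (by positivity)
  have b1 := mul_le_mul_of_nonneg_left a3 (mul_nonneg (div_pos hε5 hC).le hu)
  have b2 : ε / 5 / Cm ^ Fintype.card ι * (X / (primorial w * LL w x)) *
      (Cm ^ Fintype.card ι * LL w x ^ (Fintype.card ι - 1)) = ε / 5 * Sz ι w x X := by
    rw [Sz]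
    field_simp
  have b3 : (2 / η + 1) * (X / (primorial w * LL w x)) *
      (ε / 5 / (2 / η + 1) * LL w x ^ (univ.erase i).card) = ε / 5 * Sz ι w x X := by
    rw [Sz, hk]
    field_simp
  rw [sub_mul] at a2
  linarith

end Pool.Agent.Lib.MP_c03ca8_nt.D
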