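import Pool.Agent.Lib.MP_c03ca8_nt.D.PU
import Pool.Agent.Lib.MP_c03ca8_nt.H.CellB

set_option autoImplicit false

noncomputable section

namespace Pool.Agent.Lib.MP_c03ca8_nt.D

open Finset Filter Q H
open P3 (Rough om xi Xi bxB bil Adm)
open scoped Classical

/-! Two primes: one is detected by the sum over primes, the other by a Selberg factor. -/

variable {ι : Type} [Fintype ι] [DecidableEq ι] {h : ι → ℕ} {γ : ℝ}

/-- `mas_near` with `M = 1`, `α c = min c 1`, `θ = b`, `κ = t / b`; `gg P R R = mas P R α 0` because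
`1 ≤ pr T` (`pr_pos`) and every `q ∈ T` is at most `pr T` (as in `aw_zm`). -/
theorem gg_near (h : ι → ℕ) (γ : ℝ) {b t : ℝ} (hb0 : 0 < b) (hb : b ≤ 1) (ht : 0 < t) :
    Evn h γ fun w x _ _ => (b - t) * LL w x ≤ gg (Ps w x) ((x : ℝ) ^ b) ((x : ℝ) ^ b) := by
  refine evn_x ?_
  filter_upwards [mas_near (M := 1) (α := fun c => min (c : ℝ) 1) (by simp)
    (fun c d e => min_le_min_right _ (Nat.cast_le.2 e)) (min_le_right _ _) hb0 hb (div_pos ht hb0)]
    with w hw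
  filter_upwards [hw, (cellb_LL w).eventually_gt_atTop 0] with x hx hL
  have e : gg (Ps w x) ((x : ℝ) ^ b) ((x : ℝ) ^ b) =
      mas (Ps w x) ((x : ℝ) ^ b) (fun c => min (c : ℝ) 1) 0 := by
    refine sum_congr rfl fun T hT => congrArg (· * wt T) (if_congr ?_ rfl rfl)
    have h0 := pr_pos fun q hq => Nat.prime_of_mem_primesLE (mem_filter.1 (mem_powerset.1 hT hq)).1
    simp only [Nat.cast_zero, zero_add, Nat.cast_one, min_self, zero_le_one, min_eq_left,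
      Real.rpow_zero, Real.rpow_one]
    exact and_congr_left fun k => iff_of_true (fun q hq => lt_of_le_of_lt
      (Nat.cast_le.2 (Nat.le_of_dvd h0 (dvd_prod_of_mem (fun q => q) hq))) k) (Nat.one_le_cast.2 h0)
  have k := (abs_le.1 (hx 0 one_pos)).1
  have l : len (fun c => min (c : ℝ) 1) 0 = 1 := by simp [len]
  rw [l, ← e, le_sub_iff_add_le, le_div_iff₀ (mul_pos hb0 hL)] at k
  refine le_trans (le_of_eq ?_) k
  field_simp
  ring

theorem pair_smul (P : Finset ℕ) (j : ι) (Y : (ι → Finset ℕ) → ℝ) (c : ℝ) :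
    Zm P j (fun T => c * Y T) = fun T => c * Zm P j Y T := by
  funext T
  unfold Zm
  split_ifs
  · rw [mul_sum]
    exact sum_congr rfl fun U _ => mul_assoc _ _ _
  · rw [mul_zero]

theorem pair_bd {P : Finset ℕ} (hP : ∀ q ∈ P, q.Prime) {Y : (ι → Finset ℕ) → ℝ} {i j : ι} (hij : i ≠ j)
    (hY : Bd Y (univ.erase i)) :
    Bd (fun T => (mert P)⁻¹ * Zm P j Y T) ((univ.erase i).erase j) := by
  have h1 := bd_zm (i := j) hP hY.bd
  refine ⟨h1.bd, fun T hT l hl => ?_⟩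
  by_cases hlj : l = j
  · exact hlj ▸ h1.empty T hT
  · have hli : l = i := by simpa [hlj] using hl
    have h2 := right_ne_zero_of_mul hT
    have h3 : T j = ∅ := h1.empty T hT
    rw [Zm, if_pos h3] at h2
    obtain ⟨U, -, hU⟩ := exists_ne_zero_of_sum_ne_zero h2
    have h4 := hY.empty _ (left_ne_zero_of_mul hU)
    rwa [Function.update_of_ne hij, ← hli] at h4

/-- Put `μ = mert P`, `Z' = μ⁻¹ * Zm j (μ⁻¹ * Zm i Z) = μ⁻¹ * μ⁻¹ * Zm j (Zm i Z)`; `Bd Z' ((univ.erase i).erase j)`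
(`bd_zm` twice; `Zm j Y T ≠ 0` gives `Y (update T j U) ≠ 0`, so `T i = ∅`), `Lev Z' (x ^ θ)` (`lev_zm`).
If both forms are prime then `Aw Z = μ ^ 2 * Aw Z'` (`aw_zm` twice, `aw_smul`) and
`Aw (tens j (z0 R R) Z') = gg * Aw Z'` with `R = x ^ b` (`aw_tens`, `svs_rough`, `P3.rough_prime`).
`prime_upper` for `tens j (z0 R R) Z'` (`bd_tens`, `insert_erase`, `lev_tens`, `z0_lev`, level `x ^ (θ + b)`) with
`ε (b - t) ^ 2 / Cm ^ 4`; `dg_tens`, `fund_gg`, `dg_smul`, `gg_near`, `Gd.mert_pow`, `sz_mul`. Model: `s2_lower`. -/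
theorem pair_upper (hinj : Function.Injective h) (hγ : 0 < γ) {θ b t ε : ℝ} (hθ0 : 0 ≤ θ) (ht : 0 < t)
    (htb : t < b) (hθ : θ + b < 1 / 4) (hε : 0 < ε) :
    Evn h γ fun w x a X => ∀ (i j : ι) (Z : (ι → Finset ℕ) → ℝ), i ≠ j →
      (∀ T, |Z T| ≤ 1) → Lev Z ((x : ℝ) ^ θ) →
      ∑ n ∈ prm2 (Iw w x a X) (h i) (h j), Aw (Ps w x) h Z n ^ 2 ≤
        (prm (Iw w x a X) (h i)).card *
          (Dg (Ps w x) (Zm (Ps w x) j (Zm (Ps w x) i Z)) / ((b - t) * LL w x)) +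
        ε * (X / primorial w * LL w x ^ Fintype.card ι) := by
  have hC : 0 < Cm ^ 4 := pow_pos (zero_lt_one.trans_le one_le_Cm) _
  have hbt : 0 < b - t := sub_pos.2 htb
  have hb0 : 0 < b := ht.trans htb
  refine (((prime_upper hinj hγ (θ := b + θ) (by linarith) (by linarith)
    (div_pos (mul_pos hε (pow_pos hbt 2)) hC)).and (gg_near h γ hb0 (by linarith) ht)).and
    (ev_gd hinj γ one_pos 0)).mono ?_
  rintro w x a X - - hX ⟨⟨h1, h2⟩, G, hG, -⟩ i j Z hij hZ hL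
  have hx := ev_one_le hG
  have hL1 := hG.L1
  have hP := hG.prime
  have hm : 0 < mert (Ps w x) := zero_lt_one.trans_le (one_le_mert hP)
  have hW : (0 : ℝ) < primorial w := by exact_mod_cast primorial_pos w
  obtain ⟨Y, hY⟩ : ∃ Y, Y = fun T => (mert (Ps w x))⁻¹ * Zm (Ps w x) j
    (fun T => (mert (Ps w x))⁻¹ * Zm (Ps w x) i Z T) T := ⟨_, rfl⟩
  have b1 : Bd Y ((univ.erase i).erase j) := hY ▸ pair_bd hP hij (bd_zm hP hZ)
  have e1 : Y = fun T => ((mert (Ps w x))⁻¹ * (mert (Ps w x))⁻¹) *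
      Zm (Ps w x) j (Zm (Ps w x) i Z) T := by
    rw [hY, pair_smul]
    funext T
    ring
  have l1 := lev_zm (i := i) hP hL
  have l2 : Lev Y ((x : ℝ) ^ θ) := fun T hT => lev_zm (i := j) hP l1 T (by
    rw [e1] at hT
    exact right_ne_zero_of_mul hT)
  have b2 : ∀ T, Y T ≠ 0 → T j = ∅ := fun T hT => b1.al T hT j (notMem_erase _ _)
  have b3 := bd_tens (i := j) (abs_z0_le ((x : ℝ) ^ b) ((x : ℝ) ^ b)) b1
  rw [insert_erase (mem_erase.2 ⟨hij.symm, mem_univ j⟩)] at b3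
  have a1 := h1 i _ b3 ((lev_tens (fun T hT => z0_lev hT) l2).mono (fund_mul hx le_rfl))
  rw [dg_tens b2, fund_gg] at a1
  generalize hg : gg (Ps w x) ((x : ℝ) ^ b) ((x : ℝ) ^ b) = g at a1 h2
  have hbL : 0 < (b - t) * LL w x := by positivity
  have hg0 : 0 < g := hbL.trans_le h2
  have a2 : g ^ 2 * ∑ n ∈ prm2 (Iw w x a X) (h i) (h j), Aw (Ps w x) h Z n ^ 2 ≤ mert (Ps w x) ^ 4 *
      ∑ n ∈ prm (Iw w x a X) (h i),
        Aw (Ps w x) h (tens j (z0 ((x : ℝ) ^ b) ((x : ℝ) ^ b)) Y) n ^ 2 := by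
    rw [mul_sum, mul_sum]
    refine le_trans (le_of_eq (sum_congr rfl fun n hn => ?_)) (sum_le_sum_of_subset_of_nonneg
      (monotone_filter_right _ fun n _ hn => hn.1) fun n _ _ => by positivity)
    obtain ⟨c1, c2, c3⟩ := mem_filter.1 hn
    have c4 : ∀ {s : ℝ} (l : ι), s ≤ 1 → (x : ℝ) ^ s < ((n + h l : ℕ) : ℝ) := fun l hs => by
      have c5 := Real.rpow_le_rpow_of_exponent_le hx hs
      rw [Real.rpow_one] at c5
      exact c5.trans_lt (by exact_mod_cast (hG.mem hX c1 l).1)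
    rw [aw_tens b2, svs_rough hP (P3.rough_prime c3 (c4 j (by linarith)).le), hg, e1, aw_smul,
      aw_zm hP hL c2 (c4 i (by linarith)), aw_zm hP l1 c3 (c4 j (by linarith))]
    field_simp
  have a3 := mul_le_mul_of_nonneg_left a1 (pow_pos hm 4).le
  have hS : 0 ≤ Sz ι w x X := le_trans (by positivity) (le_sz ι X hL1)
  have a4 : mert (Ps w x) ^ 4 * (ε * (b - t) ^ 2 / Cm ^ 4 * Sz ι w x X) ≤
      g ^ 2 * (ε * (X / primorial w * LL w x ^ Fintype.card ι)) := by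
    rw [← sz_mul i X hL1]
    calc _ ≤ Cm ^ 4 * LL w x ^ 4 * (ε * (b - t) ^ 2 / Cm ^ 4 * Sz ι w x X) :=
          mul_le_mul_of_nonneg_right (hG.mert_pow (le_refl 4)) (by positivity)
      _ = ((b - t) * LL w x) ^ 2 * (ε * (Sz ι w x X * LL w x ^ 2)) := by
          have := one_le_Cm
          field_simp
      _ ≤ _ := mul_le_mul_of_nonneg_right (pow_le_pow_left₀ hbL.le h2 2) (by positivity)
  have hD := dg_nonneg hP (Zm (Ps w x) j (Zm (Ps w x) i Z))
  have a5 : mert (Ps w x) ^ 4 * ((prm (Iw w x a X) (h i)).card * (g * Dg (Ps w x) Y)) ≤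
      g ^ 2 * ((prm (Iw w x a X) (h i)).card *
        (Dg (Ps w x) (Zm (Ps w x) j (Zm (Ps w x) i Z)) / ((b - t) * LL w x))) := by
    rw [e1, dg_smul]
    calc _ = g ^ 2 * ((prm (Iw w x a X) (h i)).card *
          (Dg (Ps w x) (Zm (Ps w x) j (Zm (Ps w x) i Z)) / g)) := by field_simp
      _ ≤ _ := by gcongr
  refine le_of_mul_le_mul_left ?_ (pow_pos hg0 2)
  rw [mul_add] at a3 ⊢
  linarith

end Pool.Agent.Lib.MP_c03ca8_nt.D
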